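import Pool.Agent.H62.BS.Defs
import Pool.Agent.H89.MAL.SFT

/-!
Project BM (`MP_6540cb_lc`): a subshift of finite type with a Baire measurable equivariant map from
the free part, and without one which is measurable for the fair coin measure.  Definitions.
-/

open MeasureTheory Topology Filter Set
open Pool.Agent.H62.BS

namespace Pool.Agent.H89.BM

/-- The eleven labels. -/
inductive Lab : Type
  | O | A | D
  | M (h : Bool) | X (h : Bool) | Y (h : Bool) | E (h : Bool)
  deriving DecidableEq, Fintype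

/-- A symbol is a label together with a parity bit. -/
abbrev Sym : Type := Lab × Bool

/-- one of the labels `M0`, `M1` -/
def isM (l : Lab) : Prop := ∃ h, l = Lab.M h

/-- one of the labels `Y0`, `Y1` -/
def isY (l : Lab) : Prop := ∃ h, l = Lab.Y h

/-- `t` may stand to the right of `s` -/
structure okR (s t : Sym) : Prop where
  r1 : ∀ h, t.1 = Lab.M h → s.1 = Lab.E h ∨ s.1 = Lab.X h
  r2 : ∀ h, (s.1 = Lab.X h ∨ s.1 = Lab.E h) → t.1 = Lab.E h ∨ t.1 = Lab.M h
  r3 : (s.1 = Lab.M true ∨ s.1 = Lab.D) → t.1 = Lab.D ∨ t.1 = Lab.Y true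
  r4 : (t.1 = Lab.D ∨ t.1 = Lab.Y true) → s.1 = Lab.D ∨ s.1 = Lab.M true
  r5 : t.1 = Lab.Y false → s.1 = Lab.O ∨ s.1 = Lab.M false
  r6 : (isM s.1 ↔ isY t.1) → s.2 ≠ t.2

/-- `t` may stand below `s` -/
structure okD (s t : Sym) : Prop where
  d1 : (s.1 = Lab.A ∨ s.1 = Lab.M false) → isM t.1
  d2 : isM t.1 → (s.1 = Lab.A ∨ s.1 = Lab.M false) ∧ s.2 ≠ t.2
  d3 : s.1 = Lab.E false → ∃ h, t.1 = Lab.E h

/-- `t` may stand below and to the right of `s` (diagonally) -/
structure okDR (s t : Sym) : Prop where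
  e1 : (s.1 = Lab.A ∨ s.1 = Lab.Y false) → isY t.1
  e2 : isY t.1 → (s.1 = Lab.A ∨ s.1 = Lab.Y false) ∧ s.2 = t.2

/-- `t` may stand below and to the left of `s` (diagonally) -/
def okDL (s t : Sym) : Prop := (s.1 = Lab.A ∨ s.1 = Lab.X false) → ∃ h, t.1 = Lab.X h

/-- `w` is an admissible filling of the plane: first coordinate to the right, second coordinate
upwards. -/
structure Grid (w : ℤ → ℤ → Sym) : Prop where
  r : ∀ i j, okR (w i j) (w (i + 1) j)
  d : ∀ i j, okD (w i j) (w i (j - 1))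
  dr : ∀ i j, okDR (w i j) (w (i + 1) (j - 1))
  dl : ∀ i j, okDL (w i j) (w (i - 1) (j - 1))

/-! ### Depth -/

/-- The cell `(i,j)` lies on the vertical line of an object, `k` rows below its apex. -/
def MD (w : ℤ → ℤ → Sym) (i j : ℤ) (k : ℕ) : Prop :=
  1 ≤ k ∧ isM (w i j).1 ∧ (∀ t : ℕ, 0 < t → t < k → (w i (j + t)).1 = Lab.M false) ∧
    (w i (j + k)).1 = Lab.A

/-- The cell `(i,j)` lies on the diagonal line of an object, `k` rows below its apex. -/
def YD (w : ℤ → ℤ → Sym) (i j : ℤ) (k : ℕ) : Prop :=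
  1 ≤ k ∧ isY (w i j).1 ∧ (∀ t : ℕ, 0 < t → t < k → (w (i - t) (j + t)).1 = Lab.Y false) ∧
    (w (i - k) (j + k)).1 = Lab.A

/-- The cell `(i,j)` lies strictly between the vertical and the diagonal line of an object. -/
def Enc (w : ℤ → ℤ → Sym) (i j : ℤ) : Prop :=
  ∃ t k : ℕ, 1 ≤ t ∧ t < k ∧ MD w (i - t) j k

/-! ### The subshift -/

/-- The first coordinate direction. -/
def pt {d : ℕ} (hd : 2 ≤ d) (i j : ℤ) : G d :=
  Pi.single ⟨0, by omega⟩ i + Pi.single ⟨1, by omega⟩ j

/-- There are 22 symbols. -/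
theorem card_sym : Fintype.card Sym = 22 := by decide

/-- a numbering of the symbols -/
noncomputable def num : Sym ≃ Fin 22 := Fintype.equivFinOfCardEq card_sym

/-- The plane of symbols through the origin which is seen in a configuration. -/
noncomputable def win {d : ℕ} (hd : 2 ≤ d) (z : Conf d (Fin 22)) (i j : ℤ) : Sym :=
  num.symm (z (pt hd i j))

/-- the four pair rules at the origin -/
def Loc (w : ℤ → ℤ → Sym) : Prop :=
  okR (w 0 0) (w 1 0) ∧ okD (w 0 0) (w 0 (-1)) ∧ okDR (w 0 0) (w 1 (-1)) ∧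
    okDL (w 0 0) (w (-1) (-1))

/-- The subshift: all planes are admissible. -/
def SS {d : ℕ} (hd : 2 ≤ d) : Set (Conf d (Fin 22)) := {z | ∀ g, Loc (win hd (sh g z))}

/-! ### Frames -/

/-- maximum norm -/
def nrm (u v : ℤ) : ℤ := max |u| |v|

/-- The configuration `X` has a frame of radius `r` around `(a,b)`: ones on the circle of radius
`r` and zeros on the annulus between the radii `r` and `20 r`. -/
def Fr (X : ℤ → ℤ → Bool) (a b r : ℤ) : Prop :=
  8 ≤ r ∧ ∀ u v, (nrm u v = r → X (a + u) (b + v) = true) ∧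
    (r < nrm u v → nrm u v ≤ 20 * r → X (a + u) (b + v) = false)

/-- The label of the cell with coordinates `(u,v)` relative to the centre of a frame of radius
`r`: the object has depth `4 r + 6` and its apex is at `(-r-2, 3r+4)`. -/
def cellLab (r u v : ℤ) : Lab :=
  if u + r + 2 = 0 ∧ 3 * r + 4 - v = 0 then Lab.A
  else if 1 ≤ 3 * r + 4 - v ∧ 3 * r + 4 - v ≤ 4 * r + 6 then
    if u + r + 2 = 0 then Lab.M (decide (3 * r + 4 - v = 4 * r + 6))
    else if u + r + 2 = -(3 * r + 4 - v) then Lab.X (decide (3 * r + 4 - v = 4 * r + 6))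
    else if u + r + 2 = 3 * r + 4 - v then Lab.Y (decide (3 * r + 4 - v = 4 * r + 6))
    else if -(3 * r + 4 - v) < u + r + 2 ∧ u + r + 2 < 0 then
      Lab.E (decide (3 * r + 4 - v = 4 * r + 6))
    else if 3 * r + 4 - v = 4 * r + 6 ∧ 0 < u + r + 2 ∧ u + r + 2 < 4 * r + 6 then Lab.D
    else Lab.O
  else Lab.O

/-- The nest of the object: the cells between its vertical and its diagonal line, last row
excluded. -/
def inNest (r u v : ℤ) : Prop :=
  1 ≤ u + r + 2 ∧ u + r + 2 < 3 * r + 4 - v ∧ 3 * r + 4 - v < 4 * r + 6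

/-- The label of the cell `(i,j)` is `ℓ`, as an object prescribes. -/
def hasLab (X : ℤ → ℤ → Bool) (i j : ℤ) (ℓ : Lab) : Prop :=
  ℓ ≠ Lab.O ∧ ∃ a b r, Fr X a b r ∧ cellLab r (i - a) (j - b) = ℓ

open Classical in
/-- The label of a cell: the one which is prescribed by an object, and `O` if there is none. -/
noncomputable def labX (X : ℤ → ℤ → Bool) (i j : ℤ) : Lab :=
  if h : ∃ ℓ, hasLab X i j ℓ then Classical.choose h else Lab.O

open Classical in
/-- The parity bit of a cell: the parity of the distance vector to the centre of the smallest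
frame whose nest contains the cell. -/
noncomputable def parX (X : ℤ → ℤ → Bool) (i j : ℤ) : Bool :=
  decide (∃ a b r, Fr X a b r ∧ inNest r (i - a) (j - b) ∧
    (∀ a' b' r', Fr X a' b' r' → inNest r' (i - a') (j - b') → r ≤ r') ∧
    Odd ((i - a) + (j - b)))

/-- The cell `(i,j)` is in the inner box of a frame. -/
def Cov (X : ℤ → ℤ → Bool) (i j : ℤ) : Prop :=
  ∃ a b r, Fr X a b r ∧ nrm (i - a) (j - b) ≤ r

/-- The plane through the origin of a point. -/
def pl {d : ℕ} (hd : 2 ≤ d) (x : Conf d Bool) (i j : ℤ) : Bool := x (pt hd i j)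

/-- The map. -/
noncomputable def T0 {d : ℕ} (hd : 2 ≤ d) (x : FreePart d) : Conf d (Fin 22) := fun g =>
  num (labX (pl hd (act g x).1) 0 0, parX (pl hd (act g x).1) 0 0)

end Pool.Agent.H89.BM
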