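import Pool.Agent.H89.BM.Defs

/-!
Project BM (`MP_6540cb_lc`): the structure `Proc` of the spec (for rows BM-5, BM-6, BM-7).
-/

open MeasureTheory Topology Filter Set
open Pool.Agent.H62.BS

namespace Pool.Agent.H89.BM

/-- An equivariant, measurable admissible filling of the planes. -/
structure Proc {d : ℕ} (hd : 2 ≤ d) (W : FreePart d → ℤ → ℤ → Sym) : Prop where
  grid : ∀ x, Grid (W x)
  equi : ∀ x a b i j, W (act (pt hd a b) x) i j = W x (i + a) (j + b)
  meas : ∀ s, NullMeasurableSet {x | W x 0 0 = s} (coin d)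

end Pool.Agent.H89.BM
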