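import Pool.Agent.H89.BM.Defs

/-!
Project BM, row BM-1: the cells to the left of a vertical line.
-/

open MeasureTheory Topology Filter Set
open Pool.Agent.H62.BS

namespace Pool.Agent.H89.BM

/-- the cells of the vertical line, counted from the apex -/
theorem r1_mline {w : ℤ → ℤ → Sym} {i j : ℤ} {k : ℕ} (h : MD w i j k) (m : ℕ) (h1 : 1 ≤ m)
    (h2 : m ≤ k) : ∃ b, (w i (j + k - m)).1 = Lab.M b ∧ (m < k → b = false) := by
  rcases h2.lt_or_eq with h2 | h2
  · refine ⟨false, ?_, fun _ => rfl⟩
    have := h.2.2.1 (k - m) (by omega) (by omega)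
    rw [Nat.cast_sub h2.le] at this
    rw [← this]
    congr 2
    ring
  · subst h2
    obtain ⟨b, hb⟩ := h.2.1
    refine ⟨b, ?_, fun hh => absurd hh (lt_irrefl _)⟩
    rw [← hb]
    congr 2
    ring

theorem r1_main {w : ℤ → ℤ → Sym} (hw : Grid w) {i j : ℤ} {k : ℕ} (h : MD w i j k) (m : ℕ)
    (h1 : 1 ≤ m) : m ≤ k → ∃ b, (w (i - m) (j + k - m)).1 = Lab.X b ∧
      (∀ t : ℕ, 1 ≤ t → t < m → (w (i - t) (j + k - m)).1 = Lab.E b) ∧ (m < k → b = false) := by
  induction m, h1 using Nat.le_induction with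
  | base =>
    intro hk
    obtain ⟨b, hb⟩ := hw.dl i (j + k) (Or.inl h.2.2.2)
    obtain ⟨c, hc, hc'⟩ := r1_mline h 1 le_rfl hk
    refine ⟨b, by simpa using hb, fun t h1 h2 => absurd h1 (by omega), fun hh => ?_⟩
    have hr := (hw.r (i - 1) (j + k - 1)).r2 b (Or.inl hb)
    rw [sub_add_cancel] at hr
    rw [Nat.cast_one] at hc
    rw [hc] at hr
    rcases hr with hr | hr
    · exact absurd hr (by simp)
    · injection hr with hr
      rw [← hr]
      exact hc' hh
  | succ m hm ih =>
    intro hk
    obtain ⟨b, hX, hE, hb⟩ := ih (by omega)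
    have hb' := hb (by omega)
    subst hb'
    obtain ⟨c, hc, hc'⟩ := r1_mline h (m + 1) (by omega) hk
    obtain ⟨b', hb'⟩ := hw.dl (i - m) (j + k - m) (Or.inr hX)
    -- the row below
    have hrow : j + (k : ℤ) - m - 1 = j + k - ((m + 1 : ℕ) : ℤ) := by push_cast; ring
    rw [hrow] at hb'
    have key : ∀ s : ℕ, s < m → (w (i - ((m - s : ℕ) : ℤ)) (j + k - ((m + 1 : ℕ) : ℤ))).1 =
        Lab.E b' := by
      intro s
      induction s with
      | zero =>
        intro _
        rw [Nat.sub_zero]
        have hr := (hw.r (i - m - 1) (j + k - ((m + 1 : ℕ) : ℤ))).r2 b' (Or.inl hb')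
        rw [sub_add_cancel] at hr
        rcases hr with hr | hr
        · exact hr
        · have hd := ((hw.d (i - m) (j + k - m)).d2 (by rw [hrow]; exact ⟨b', hr⟩)).1
          rw [hX] at hd
          rcases hd with hd | hd
          · exact absurd hd (by simp)
          · exact absurd hd (by simp)
      | succ s ihs =>
        intro hs
        have hl := ihs (by omega)
        have hE' := hE (m - (s + 1)) (by omega) (by omega)
        obtain ⟨g, hg⟩ := (hw.d (i - ((m - (s + 1) : ℕ) : ℤ)) (j + k - m)).d3 hE'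
        rw [hrow] at hg
        have hr := (hw.r (i - ((m - s : ℕ) : ℤ)) (j + k - ((m + 1 : ℕ) : ℤ))).r2 b' (Or.inr hl)
        have hcol : i - ((m - s : ℕ) : ℤ) + 1 = i - ((m - (s + 1) : ℕ) : ℤ) := by
          have : m - s = (m - (s + 1)) + 1 := by omega
          rw [this]
          push_cast
          ring
        rw [hcol, hg] at hr
        rw [hg]
        rcases hr with hr | hr
        · exact hr
        · exact absurd hr (by simp)
    refine ⟨b', ?_, ?_, ?_⟩
    · rw [← hb']
      congr 2
      push_cast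
      ring
    · intro t h1 h2
      have := key (m - t) (by omega)
      have hmt : m - (m - t) = t := by omega
      rwa [hmt] at this
    · intro hh
      have hl := key (m - 1) (by omega)
      have hmt : m - (m - 1) = 1 := by omega
      rw [hmt] at hl
      have hr := (hw.r (i - ((1 : ℕ) : ℤ)) (j + k - ((m + 1 : ℕ) : ℤ))).r2 b' (Or.inr hl)
      rw [Nat.cast_one, sub_add_cancel, hc] at hr
      rcases hr with hr | hr
      · exact absurd hr (by simp)
      · injection hr with hr
        rw [← hr]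
        exact hc' hh

theorem left_run {w : ℤ → ℤ → Sym} (hw : Grid w) {i j : ℤ} {k : ℕ} (h : MD w i j k) :
    ∀ t : ℕ, 1 ≤ t → t < k → ∃ b, (w (i - t) j).1 = Lab.E b := by
  intro t h1 h2
  obtain ⟨b, _, hE, _⟩ := r1_main hw h k h.1 le_rfl
  refine ⟨b, ?_⟩
  have := hE t h1 h2
  rwa [add_sub_cancel_right] at this

end Pool.Agent.H89.BM
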