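import Pool.Agent.H89.BM.Defs

/-!
Project BM (`MP_6540cb_lc`), row BM-10: labels and parities of cells.
-/

open MeasureTheory Topology Filter Set
open Pool.Agent.H62.BS

namespace Pool.Agent.H89.BM

/-- the conclusion of `fr_cases` -/
def FrCases (X : ℤ → ℤ → Bool) : Prop :=
  ∀ a b r a' b' r', Fr X a b r → Fr X a' b' r' → r ≤ r' →
    (a = a' ∧ b = b' ∧ r = r') ∨ 19 * r' < nrm (a - a') (b - b') ∨
      nrm (a - a') (b - b') + 20 * r < r'

/-- the conclusions of `cell_far`, `cell_out` -/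
def CellGeo : Prop :=
  (∀ r u v : ℤ, 8 ≤ r → (cellLab r u v ≠ Lab.O ∨ inNest r u v) → nrm u v ≤ 6 * r) ∧
    ∀ r u v : ℤ, 8 ≤ r → nrm u v ≤ r → cellLab r u v = Lab.O ∧ inNest r u v

theorem r10_nrm_le {u v c : ℤ} : nrm u v ≤ c ↔ |u| ≤ c ∧ |v| ≤ c := max_le_iff

/-- two frames which label neighbouring cells are equal (ordered version) -/
theorem r10_same_le {X : ℤ → ℤ → Bool} (hX : FrCases X) (hg : CellGeo)
    {a b r a' b' r' i j i' j' : ℤ} (hF : Fr X a b r) (hF' : Fr X a' b' r') (hr : r ≤ r')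
    (hc : cellLab r (i - a) (j - b) ≠ Lab.O ∨ inNest r (i - a) (j - b))
    (hc' : cellLab r' (i' - a') (j' - b') ≠ Lab.O) (hi : |i' - i| ≤ 1)
    (hj : |j' - j| ≤ 1) : a = a' ∧ b = b' ∧ r = r' := by
  have h8 := hF.1
  have h8' := hF'.1
  have k1 := r10_nrm_le.1 (hg.1 r _ _ h8 hc)
  have k2 := r10_nrm_le.1 (hg.1 r' _ _ h8' (Or.inl hc'))
  obtain ⟨k11, k12⟩ := k1
  obtain ⟨k21, k22⟩ := k2
  rw [abs_le] at k11 k12 k21 k22 hi hj
  rcases hX a b r a' b' r' hF hF' hr with h | h | h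
  · exact h
  · exfalso
    have hle : nrm (a - a') (b - b') ≤ 19 * r' := by
      rw [r10_nrm_le, abs_le, abs_le]
      omega
    omega
  · exfalso
    apply hc'
    have hle : nrm (a - a') (b - b') ≤ nrm (a - a') (b - b') := le_rfl
    obtain ⟨m1, m2⟩ := r10_nrm_le.1 hle
    rw [abs_le] at m1 m2
    refine (hg.2 r' _ _ h8' ?_).1
    rw [r10_nrm_le, abs_le, abs_le]
    omega

theorem r10_same {X : ℤ → ℤ → Bool} (hX : FrCases X) (hg : CellGeo)
    {a b r a' b' r' i j i' j' : ℤ} (hF : Fr X a b r) (hF' : Fr X a' b' r')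
    (hc : cellLab r (i - a) (j - b) ≠ Lab.O)
    (hc' : cellLab r' (i' - a') (j' - b') ≠ Lab.O) (hi : |i' - i| ≤ 1)
    (hj : |j' - j| ≤ 1) : a = a' ∧ b = b' ∧ r = r' := by
  rcases le_total r r' with h | h
  · exact r10_same_le hX hg hF hF' h (Or.inl hc) hc' hi hj
  · have hi' : |i - i'| ≤ 1 := by rw [abs_sub_comm]; exact hi
    have hj' : |j - j'| ≤ 1 := by rw [abs_sub_comm]; exact hj
    obtain ⟨e1, e2, e3⟩ := r10_same_le hX hg hF' hF h (Or.inl hc') hc hi' hj'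
    exact ⟨e1.symm, e2.symm, e3.symm⟩

theorem labX_ne {X : ℤ → ℤ → Bool} {i j : ℤ} (h : labX X i j ≠ Lab.O) :
    ∃ a b r, Fr X a b r ∧ cellLab r (i - a) (j - b) = labX X i j := by
  classical
  unfold labX at h ⊢
  split_ifs with hex
  · exact (Classical.choose_spec hex).2
  · rw [dif_neg hex] at h
    exact absurd rfl h

theorem labX_eq {X : ℤ → ℤ → Bool} (hX : FrCases X) (hg : CellGeo) {a b r i j i' j' : ℤ}
    (hF : Fr X a b r) (hc : cellLab r (i - a) (j - b) ≠ Lab.O) (hi : |i' - i| ≤ 1)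
    (hj : |j' - j| ≤ 1) : labX X i' j' = cellLab r (i' - a) (j' - b) := by
  classical
  by_cases h : labX X i' j' = Lab.O
  · rw [h]
    by_contra hne
    have hex : ∃ ℓ, hasLab X i' j' ℓ := ⟨_, fun e => hne e.symm, a, b, r, hF, rfl⟩
    have hsp := (Classical.choose_spec hex).1
    apply hsp
    unfold labX at h
    rw [dif_pos hex] at h
    exact h
  · obtain ⟨a', b', r', hF', he⟩ := labX_ne h
    have hne : cellLab r' (i' - a') (j' - b') ≠ Lab.O := by
      rw [he]; exact h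
    obtain ⟨e1, e2, e3⟩ := r10_same hX hg hF hF' hc hne hi hj
    subst e1; subst e2; subst e3
    exact he.symm

/-- `(a,b,r)` is the smallest frame whose nest contains the cell -/
def r10_Min (X : ℤ → ℤ → Bool) (i j a b r : ℤ) : Prop :=
  Fr X a b r ∧ inNest r (i - a) (j - b) ∧
    ∀ a' b' r', Fr X a' b' r' → inNest r' (i - a') (j - b') → r ≤ r'

theorem r10_exists_min {X : ℤ → ℤ → Bool} (hg : CellGeo) {i j : ℤ} (hcov : Cov X i j) :
    ∃ a b r, r10_Min X i j a b r := by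
  classical
  obtain ⟨a, b, r, hF, hn⟩ := hcov
  have hex : ∃ n : ℕ, ∃ a b : ℤ, Fr X a b n ∧ inNest n (i - a) (j - b) := by
    refine ⟨r.toNat, a, b, ?_⟩
    have h8 := hF.1
    have e : (r.toNat : ℤ) = r := Int.toNat_of_nonneg (by omega)
    rw [e]
    exact ⟨hF, (hg.2 r _ _ h8 hn).2⟩
  obtain ⟨a₀, b₀, h1, h2⟩ := Nat.find_spec hex
  refine ⟨a₀, b₀, (Nat.find hex : ℤ), h1, h2, fun a' b' r' hF' hn' => ?_⟩
  have h8 := hF'.1
  have e : (r'.toNat : ℤ) = r' := Int.toNat_of_nonneg (by omega)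
  have : Nat.find hex ≤ r'.toNat := by
    apply Nat.find_min'
    refine ⟨a', b', ?_⟩
    rw [e]
    exact ⟨hF', hn'⟩
  omega

theorem r10_min_unique {X : ℤ → ℤ → Bool} (hX : FrCases X) (hg : CellGeo)
    {i j a b r a' b' r' : ℤ} (h : r10_Min X i j a b r) (h' : r10_Min X i j a' b' r') :
    a = a' ∧ b = b' := by
  have e : r = r' := le_antisymm (h.2.2 _ _ _ h'.1 h'.2.1) (h'.2.2 _ _ _ h.1 h.2.1)
  subst e
  have h8 := h.1.1
  have k1 := r10_nrm_le.1 (hg.1 r _ _ h8 (Or.inr h.2.1))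
  have k2 := r10_nrm_le.1 (hg.1 r _ _ h8 (Or.inr h'.2.1))
  obtain ⟨k11, k12⟩ := k1
  obtain ⟨k21, k22⟩ := k2
  rw [abs_le] at k11 k12 k21 k22
  rcases hX a b r a' b' r h.1 h'.1 le_rfl with h1 | h1 | h1
  · exact ⟨h1.1, h1.2.1⟩
  · exfalso
    have hle : nrm (a - a') (b - b') ≤ 19 * r := by
      rw [r10_nrm_le, abs_le, abs_le]
      omega
    omega
  · exfalso
    have hle : nrm (a - a') (b - b') ≤ nrm (a - a') (b - b') := le_rfl
    have m1 := (r10_nrm_le.1 hle).1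
    have := abs_nonneg (a - a')
    omega

theorem r10_parX {X : ℤ → ℤ → Bool} (hX : FrCases X) (hg : CellGeo) {i j a b r : ℤ}
    (h : r10_Min X i j a b r) : parX X i j = decide (Odd ((i - a) + (j - b))) := by
  classical
  unfold parX
  rw [decide_eq_decide]
  constructor
  · rintro ⟨a', b', r', h1, h2, h3, h4⟩
    obtain ⟨e1, e2⟩ := r10_min_unique hX hg h ⟨h1, h2, h3⟩
    rw [e1, e2]
    exact h4
  · intro ho
    exact ⟨a, b, r, h.1, h.2.1, h.2.2, ho⟩

theorem par_step {X : ℤ → ℤ → Bool} (hX : FrCases X) (hg : CellGeo) {i j i' j' : ℤ}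
    (hcov : Cov X i j)
    (hsame : ∀ a b r, Fr X a b r → (inNest r (i - a) (j - b) ↔ inNest r (i' - a) (j' - b))) :
    parX X i' j' = xor (parX X i j) (decide (Odd ((i' - i) + (j' - j)))) := by
  classical
  obtain ⟨a, b, r, h⟩ := r10_exists_min hg hcov
  have h' : r10_Min X i' j' a b r := by
    refine ⟨h.1, (hsame a b r h.1).1 h.2.1, fun a' b' r' hF hn => ?_⟩
    exact h.2.2 a' b' r' hF ((hsame a' b' r' hF).2 hn)
  rw [r10_parX hX hg h, r10_parX hX hg h']
  have e : (i' - a) + (j' - b) = ((i - a) + (j - b)) + ((i' - i) + (j' - j)) := by ring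
  rw [e]
  generalize (i - a) + (j - b) = m
  generalize (i' - i) + (j' - j) = n
  by_cases hm : Odd m <;> by_cases hn : Odd n <;>
    simp [Int.odd_add, hm, hn, ← Int.not_odd_iff_even]

end Pool.Agent.H89.BM
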