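import Pool.Agent.H89.BM.Defs

/-!
Project BM, row 17: the label parts of the four pair rules for one object.
-/

namespace Pool.Agent.H89.BM

private theorem r17_A {r u v : ℤ} :
    cellLab r u v = Lab.A ↔ u + r + 2 = 0 ∧ 3 * r + 4 - v = 0 := by
  unfold cellLab
  split_ifs <;> simp_all

private theorem r17_M {r u v : ℤ} {h : Bool} :
    cellLab r u v = Lab.M h ↔ (1 ≤ 3 * r + 4 - v ∧ 3 * r + 4 - v ≤ 4 * r + 6) ∧ u + r + 2 = 0 ∧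
      (h = true ↔ 3 * r + 4 - v = 4 * r + 6) := by
  unfold cellLab
  cases h <;> split_ifs <;> simp <;> omega

private theorem r17_X {r u v : ℤ} {h : Bool} :
    cellLab r u v = Lab.X h ↔ (1 ≤ 3 * r + 4 - v ∧ 3 * r + 4 - v ≤ 4 * r + 6) ∧
      u + r + 2 = -(3 * r + 4 - v) ∧ (h = true ↔ 3 * r + 4 - v = 4 * r + 6) := by
  unfold cellLab
  cases h <;> split_ifs <;> simp <;> omega

private theorem r17_Y {r u v : ℤ} {h : Bool} :
    cellLab r u v = Lab.Y h ↔ (1 ≤ 3 * r + 4 - v ∧ 3 * r + 4 - v ≤ 4 * r + 6) ∧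
      u + r + 2 = 3 * r + 4 - v ∧ (h = true ↔ 3 * r + 4 - v = 4 * r + 6) := by
  unfold cellLab
  cases h <;> split_ifs <;> simp <;> omega

private theorem r17_E {r u v : ℤ} {h : Bool} :
    cellLab r u v = Lab.E h ↔ (1 ≤ 3 * r + 4 - v ∧ 3 * r + 4 - v ≤ 4 * r + 6) ∧
      (-(3 * r + 4 - v) < u + r + 2 ∧ u + r + 2 < 0) ∧
      (h = true ↔ 3 * r + 4 - v = 4 * r + 6) := by
  unfold cellLab
  cases h <;> split_ifs <;> simp <;> omega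

private theorem r17_D {r u v : ℤ} (hr : 8 ≤ r) :
    cellLab r u v = Lab.D ↔ 3 * r + 4 - v = 4 * r + 6 ∧ 0 < u + r + 2 ∧
      u + r + 2 < 4 * r + 6 := by
  unfold cellLab
  split_ifs <;> simp <;> omega

private theorem r17_O {r u v : ℤ} (hr : 8 ≤ r) :
    cellLab r u v = Lab.O ↔ ¬ (3 * r + 4 - v = 0 ∧ u + r + 2 = 0) ∧
      ¬ (1 ≤ 3 * r + 4 - v ∧ 3 * r + 4 - v < 4 * r + 6 ∧ -(3 * r + 4 - v) ≤ u + r + 2 ∧
        u + r + 2 ≤ 0) ∧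
      ¬ (1 ≤ 3 * r + 4 - v ∧ 3 * r + 4 - v < 4 * r + 6 ∧ u + r + 2 = 3 * r + 4 - v) ∧
      ¬ (3 * r + 4 - v = 4 * r + 6 ∧ -(3 * r + 4 - v) ≤ u + r + 2 ∧
        u + r + 2 ≤ 3 * r + 4 - v) := by
  unfold cellLab
  split_ifs <;> simp <;> omega

private theorem r17_isM {r u v : ℤ} :
    isM (cellLab r u v) ↔ (1 ≤ 3 * r + 4 - v ∧ 3 * r + 4 - v ≤ 4 * r + 6) ∧ u + r + 2 = 0 := by
  constructor
  · rintro ⟨h, hh⟩
    exact ⟨(r17_M.1 hh).1, (r17_M.1 hh).2.1⟩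
  · rintro ⟨h1, h2⟩
    exact ⟨decide (3 * r + 4 - v = 4 * r + 6), r17_M.2 ⟨h1, h2, by simp⟩⟩

private theorem r17_isY {r u v : ℤ} :
    isY (cellLab r u v) ↔ (1 ≤ 3 * r + 4 - v ∧ 3 * r + 4 - v ≤ 4 * r + 6) ∧
      u + r + 2 = 3 * r + 4 - v := by
  constructor
  · rintro ⟨h, hh⟩
    exact ⟨(r17_Y.1 hh).1, (r17_Y.1 hh).2.1⟩
  · rintro ⟨h1, h2⟩
    exact ⟨decide (3 * r + 4 - v = 4 * r + 6), r17_Y.2 ⟨h1, h2, by simp⟩⟩

private theorem r17_exE {r u v : ℤ} :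
    (∃ h, cellLab r u v = Lab.E h) ↔ (1 ≤ 3 * r + 4 - v ∧ 3 * r + 4 - v ≤ 4 * r + 6) ∧
      (-(3 * r + 4 - v) < u + r + 2 ∧ u + r + 2 < 0) := by
  constructor
  · rintro ⟨h, hh⟩
    exact ⟨(r17_E.1 hh).1, (r17_E.1 hh).2.1⟩
  · rintro ⟨h1, h2⟩
    exact ⟨decide (3 * r + 4 - v = 4 * r + 6), r17_E.2 ⟨h1, h2, by simp⟩⟩

private theorem r17_exX {r u v : ℤ} :
    (∃ h, cellLab r u v = Lab.X h) ↔ (1 ≤ 3 * r + 4 - v ∧ 3 * r + 4 - v ≤ 4 * r + 6) ∧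
      u + r + 2 = -(3 * r + 4 - v) := by
  constructor
  · rintro ⟨h, hh⟩
    exact ⟨(r17_X.1 hh).1, (r17_X.1 hh).2.1⟩
  · rintro ⟨h1, h2⟩
    exact ⟨decide (3 * r + 4 - v = 4 * r + 6), r17_X.2 ⟨h1, h2, by simp⟩⟩

/-- the label parts of the four pair rules -/
theorem cell_rules {r : ℤ} (hr : 8 ≤ r) (u v : ℤ) :
    ((∀ h, cellLab r (u + 1) v = Lab.M h → cellLab r u v = Lab.E h ∨ cellLab r u v = Lab.X h) ∧
    (∀ h, (cellLab r u v = Lab.X h ∨ cellLab r u v = Lab.E h) →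
      cellLab r (u + 1) v = Lab.E h ∨ cellLab r (u + 1) v = Lab.M h) ∧
    ((cellLab r u v = Lab.M true ∨ cellLab r u v = Lab.D) →
      cellLab r (u + 1) v = Lab.D ∨ cellLab r (u + 1) v = Lab.Y true) ∧
    ((cellLab r (u + 1) v = Lab.D ∨ cellLab r (u + 1) v = Lab.Y true) →
      cellLab r u v = Lab.D ∨ cellLab r u v = Lab.M true) ∧
    (cellLab r (u + 1) v = Lab.Y false → cellLab r u v = Lab.O ∨ cellLab r u v = Lab.M false)) ∧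
    (((cellLab r u v = Lab.A ∨ cellLab r u v = Lab.M false) → isM (cellLab r u (v - 1))) ∧
    (isM (cellLab r u (v - 1)) → cellLab r u v = Lab.A ∨ cellLab r u v = Lab.M false) ∧
    (cellLab r u v = Lab.E false → ∃ h, cellLab r u (v - 1) = Lab.E h)) ∧
    (((cellLab r u v = Lab.A ∨ cellLab r u v = Lab.Y false) →
      isY (cellLab r (u + 1) (v - 1))) ∧
    (isY (cellLab r (u + 1) (v - 1)) → cellLab r u v = Lab.A ∨ cellLab r u v = Lab.Y false)) ∧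
    ((cellLab r u v = Lab.A ∨ cellLab r u v = Lab.X false) →
      ∃ h, cellLab r (u - 1) (v - 1) = Lab.X h) := by
  refine ⟨⟨?_, ?_, ?_, ?_, ?_⟩, ⟨?_, ?_, fun h => r17_exE.2 ?_⟩, ⟨?_, ?_⟩,
    fun h => r17_exX.2 ?_⟩
  all_goals
    simp only [r17_A, r17_M, r17_X, r17_Y, r17_E, r17_D hr, r17_O hr, r17_isM, r17_isY,
      Bool.forall_bool, Bool.false_eq_true, true_iff, false_iff] at *
    omega

end Pool.Agent.H89.BM
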