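import Pool.Agent.H89.BM.R9
import Pool.Agent.H89.BM.R10
import Pool.Agent.H89.BM.R17

/-!
Project BM (`MP_6540cb_lc`), row BM-11: covered configurations are filled admissibly.
-/

open MeasureTheory Topology Filter Set
open Pool.Agent.H62.BS

namespace Pool.Agent.H89.BM

/-- the labels of two neighbouring cells come from one frame -/
theorem r11_pair {X : ℤ → ℤ → Bool} (hX : FrCases X) (hg : CellGeo) {i j i' j' : ℤ}
    (hi : |i' - i| ≤ 1) (hj : |j' - j| ≤ 1) :
    (labX X i j = Lab.O ∧ labX X i' j' = Lab.O) ∨ ∃ a b r, Fr X a b r ∧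
      labX X i j = cellLab r (i - a) (j - b) ∧ labX X i' j' = cellLab r (i' - a) (j' - b) := by
  by_cases h : labX X i j = Lab.O
  · by_cases h' : labX X i' j' = Lab.O
    · exact Or.inl ⟨h, h'⟩
    · obtain ⟨a, b, r, hF, he⟩ := labX_ne h'
      refine Or.inr ⟨a, b, r, hF, ?_, he.symm⟩
      refine labX_eq hX hg (i := i') (j := j') hF (by rw [he]; exact h') ?_ ?_
      · rw [abs_sub_comm]; exact hi
      · rw [abs_sub_comm]; exact hj
  · obtain ⟨a, b, r, hF, he⟩ := labX_ne h
    exact Or.inr ⟨a, b, r, hF, he.symm, labX_eq hX hg hF (by rw [he]; exact h) hi hj⟩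

theorem r11_okR {X : ℤ → ℤ → Bool} (hX : FrCases X) (hg : CellGeo) (hcov : ∀ i j, Cov X i j)
    (i j : ℤ) : okR (labX X i j, parX X i j) (labX X (i + 1) j, parX X (i + 1) j) := by
  have h1 : |i + 1 - i| ≤ 1 := by
    rw [show i + 1 - i = 1 by ring]; simp
  have h2 : |j - j| ≤ 1 := by simp
  have key : (labX X i j = Lab.O ∧ labX X (i + 1) j = Lab.O) ∨ ∃ r u v : ℤ, 8 ≤ r ∧
      labX X i j = cellLab r u v ∧ labX X (i + 1) j = cellLab r (u + 1) v := by
    rcases r11_pair hX hg h1 h2 with h | ⟨a, b, r, hF, e1, e2⟩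
    · exact Or.inl h
    · refine Or.inr ⟨r, i - a, j - b, hF.1, e1, ?_⟩
      rw [e2, show i + 1 - a = i - a + 1 by ring]
  have h6 : (isM (labX X i j) ↔ isY (labX X (i + 1) j)) → parX X i j ≠ parX X (i + 1) j := by
    intro hiff
    by_cases hs : ∀ a b r, Fr X a b r → (inNest r (i - a) (j - b) ↔ inNest r (i + 1 - a) (j - b))
    · have := par_step hX hg (hcov i j) hs
      rw [this, show i + 1 - i + (j - j) = 1 by ring]
      simp
    · exfalso
      push Not at hs
      obtain ⟨a, b, r, hF, hn⟩ := hs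
      have hn' : ¬ (inNest r (i - a) (j - b) ↔ inNest r (i - a + 1) (j - b)) := by
        rw [show i - a + 1 = i + 1 - a by ring]
        tauto
      have e : i + 1 - a = i - a + 1 := by ring
      rcases nest_right hF.1 _ _ hn' with ⟨c1, c2⟩ | ⟨c1, c2⟩
      · have l1 : labX X i j = Lab.M false := by
          rw [← c1]
          exact labX_eq hX hg (i := i) (j := j) hF (by rw [c1]; simp) (by simp) (by simp)
        have l2 : labX X (i + 1) j = Lab.O := by
          rw [← c2, ← e]
          exact labX_eq hX hg (i := i) (j := j) hF (by rw [c1]; simp) h1 h2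
        rw [l1, l2] at hiff
        obtain ⟨h, hh⟩ := hiff.1 ⟨false, rfl⟩
        exact Lab.noConfusion hh
      · have c2' : cellLab r (i + 1 - a) (j - b) = Lab.Y false := by rw [e]; exact c2
        have l1 : labX X (i + 1) j = Lab.Y false := by
          rw [← c2']
          exact labX_eq hX hg (i := i + 1) (j := j) hF (by rw [c2']; simp) (by simp) (by simp)
        have l2 : labX X i j = Lab.O := by
          rw [← c1]
          refine labX_eq hX hg (i := i + 1) (j := j) hF (by rw [c2']; simp) ?_ (by simp)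
          rw [abs_sub_comm]; exact h1
        rw [l1, l2] at hiff
        obtain ⟨h, hh⟩ := hiff.2 ⟨false, rfl⟩
        exact Lab.noConfusion hh
  rcases key with ⟨e1, e2⟩ | ⟨r, u, v, h8, e1, e2⟩
  · refine ⟨?_, ?_, ?_, ?_, ?_, h6⟩ <;> simp [e1, e2]
  · obtain ⟨⟨k1, k2, k3, k4, k5⟩, -⟩ := cell_rules h8 u v
    refine ⟨?_, ?_, ?_, ?_, ?_, h6⟩
    · simpa only [e1, e2] using k1
    · simpa only [e1, e2] using k2
    · simpa only [e1, e2] using k3
    · simpa only [e1, e2] using k4
    · simpa only [e1, e2] using k5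

theorem r11_okD {X : ℤ → ℤ → Bool} (hX : FrCases X) (hg : CellGeo) (hcov : ∀ i j, Cov X i j)
    (i j : ℤ) : okD (labX X i j, parX X i j) (labX X i (j - 1), parX X i (j - 1)) := by
  have h1 : |i - i| ≤ 1 := by simp
  have h2 : |j - 1 - j| ≤ 1 := by
    rw [show j - 1 - j = -1 by ring]; simp
  have key : (labX X i j = Lab.O ∧ labX X i (j - 1) = Lab.O) ∨ ∃ r u v : ℤ, 8 ≤ r ∧
      labX X i j = cellLab r u v ∧ labX X i (j - 1) = cellLab r u (v - 1) := by
    rcases r11_pair hX hg h1 h2 with h | ⟨a, b, r, hF, e1, e2⟩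
    · exact Or.inl h
    · refine Or.inr ⟨r, i - a, j - b, hF.1, e1, ?_⟩
      rw [e2, show j - 1 - b = j - b - 1 by ring]
  have h6 : isM (labX X i (j - 1)) → (labX X i j = Lab.A ∨ labX X i j = Lab.M false) →
      parX X i j ≠ parX X i (j - 1) := by
    intro hM hA
    by_cases hs : ∀ a b r, Fr X a b r → (inNest r (i - a) (j - b) ↔ inNest r (i - a) (j - 1 - b))
    · have := par_step hX hg (hcov i j) hs
      rw [this, show i - i + (j - 1 - j) = -1 by ring]
      simp
    · exfalso
      push Not at hs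
      obtain ⟨a, b, r, hF, hn⟩ := hs
      have hn' : ¬ (inNest r (i - a) (j - b) ↔ inNest r (i - a) (j - b - 1)) := by
        rw [show j - b - 1 = j - 1 - b by ring]
        tauto
      have e : j - 1 - b = j - b - 1 := by ring
      rcases nest_down hF.1 _ _ hn' with c1 | c2
      · have l1 : labX X i j = Lab.Y false := by
          rw [← c1]
          exact labX_eq hX hg (i := i) (j := j) hF (by rw [c1]; simp) (by simp) (by simp)
        rw [l1] at hA
        rcases hA with h | h <;> exact Lab.noConfusion h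
      · have c2' : cellLab r (i - a) (j - 1 - b) = Lab.D := by rw [e]; exact c2
        have l1 : labX X i (j - 1) = Lab.D := by
          rw [← c2']
          exact labX_eq hX hg (i := i) (j := j - 1) hF (by rw [c2']; simp) (by simp) (by simp)
        rw [l1] at hM
        obtain ⟨h, hh⟩ := hM
        exact Lab.noConfusion hh
  rcases key with ⟨e1, e2⟩ | ⟨r, u, v, h8, e1, e2⟩
  · refine ⟨?_, ?_, ?_⟩
    · simp [e1]
    · rintro ⟨h, hh⟩
      simp only [e2] at hh
      exact Lab.noConfusion hh
    · simp [e1]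
  · obtain ⟨-, ⟨k1, k2, k3⟩, -⟩ := cell_rules h8 u v
    refine ⟨?_, ?_, ?_⟩
    · simpa only [e1, e2] using k1
    · intro hM
      have hA : labX X i j = Lab.A ∨ labX X i j = Lab.M false := by
        rw [e1]
        apply k2
        rw [← e2]
        exact hM
      exact ⟨hA, h6 hM hA⟩
    · simpa only [e1, e2] using k3

theorem r11_okDR {X : ℤ → ℤ → Bool} (hX : FrCases X) (hg : CellGeo) (hcov : ∀ i j, Cov X i j)
    (i j : ℤ) : okDR (labX X i j, parX X i j)
      (labX X (i + 1) (j - 1), parX X (i + 1) (j - 1)) := by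
  have h1 : |i + 1 - i| ≤ 1 := by
    rw [show i + 1 - i = 1 by ring]; simp
  have h2 : |j - 1 - j| ≤ 1 := by
    rw [show j - 1 - j = -1 by ring]; simp
  have key : (labX X i j = Lab.O ∧ labX X (i + 1) (j - 1) = Lab.O) ∨ ∃ r u v : ℤ, 8 ≤ r ∧
      labX X i j = cellLab r u v ∧ labX X (i + 1) (j - 1) = cellLab r (u + 1) (v - 1) := by
    rcases r11_pair hX hg h1 h2 with h | ⟨a, b, r, hF, e1, e2⟩
    · exact Or.inl h
    · refine Or.inr ⟨r, i - a, j - b, hF.1, e1, ?_⟩
      rw [e2, show j - 1 - b = j - b - 1 by ring, show i + 1 - a = i - a + 1 by ring]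
  have h6 : isY (labX X (i + 1) (j - 1)) → (labX X i j = Lab.A ∨ labX X i j = Lab.Y false) →
      parX X i j = parX X (i + 1) (j - 1) := by
    intro hY hA
    by_cases hs : ∀ a b r, Fr X a b r →
        (inNest r (i - a) (j - b) ↔ inNest r (i + 1 - a) (j - 1 - b))
    · have := par_step hX hg (hcov i j) hs
      rw [this, show i + 1 - i + (j - 1 - j) = 0 by ring]
      simp
    · exfalso
      push Not at hs
      obtain ⟨a, b, r, hF, hn⟩ := hs
      have e : j - 1 - b = j - b - 1 := by ring
      have e' : i + 1 - a = i - a + 1 := by ring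
      have hn' : ¬ (inNest r (i - a) (j - b) ↔ inNest r (i - a + 1) (j - b - 1)) := by
        rw [← e, ← e']
        tauto
      rcases nest_diag hF.1 _ _ hn' with c1 | c2
      · have l1 : labX X i j = Lab.M false := by
          rw [← c1]
          exact labX_eq hX hg (i := i) (j := j) hF (by rw [c1]; simp) (by simp) (by simp)
        rw [l1] at hA
        rcases hA with h | h <;> exact Lab.noConfusion h
      · have c2' : cellLab r (i + 1 - a) (j - 1 - b) = Lab.D := by rw [e, e']; exact c2
        have l1 : labX X (i + 1) (j - 1) = Lab.D := by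
          rw [← c2']
          exact labX_eq hX hg (i := i + 1) (j := j - 1) hF (by rw [c2']; simp) (by simp) (by simp)
        rw [l1] at hY
        obtain ⟨h, hh⟩ := hY
        exact Lab.noConfusion hh
  rcases key with ⟨e1, e2⟩ | ⟨r, u, v, h8, e1, e2⟩
  · refine ⟨?_, ?_⟩
    · simp [e1]
    · rintro ⟨h, hh⟩
      simp only [e2] at hh
      exact Lab.noConfusion hh
  · obtain ⟨-, -, ⟨k1, k2⟩, -⟩ := cell_rules h8 u v
    refine ⟨?_, ?_⟩
    · simpa only [e1, e2] using k1
    · intro hY
      have hA : labX X i j = Lab.A ∨ labX X i j = Lab.Y false := by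
        rw [e1]
        apply k2
        rw [← e2]
        exact hY
      exact ⟨hA, h6 hY hA⟩

theorem r11_okDL {X : ℤ → ℤ → Bool} (hX : FrCases X) (hg : CellGeo)
    (i j : ℤ) : okDL (labX X i j, parX X i j)
      (labX X (i - 1) (j - 1), parX X (i - 1) (j - 1)) := by
  have h1 : |i - 1 - i| ≤ 1 := by
    rw [show i - 1 - i = -1 by ring]; simp
  have h2 : |j - 1 - j| ≤ 1 := by
    rw [show j - 1 - j = -1 by ring]; simp
  rcases r11_pair hX hg h1 h2 with ⟨e1, e2⟩ | ⟨a, b, r, hF, e1, e2⟩
  · unfold okDL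
    simp [e1]
  · obtain ⟨-, -, -, k⟩ := cell_rules hF.1 (i - a) (j - b)
    unfold okDL
    simp only [e1, e2]
    rw [show i - 1 - a = i - a - 1 by ring, show j - 1 - b = j - b - 1 by ring]
    exact k

theorem grid_of_cov {X : ℤ → ℤ → Bool} (hX : FrCases X) (hg : CellGeo)
    (hcov : ∀ i j, Cov X i j) : Grid fun i j => (labX X i j, parX X i j) :=
  ⟨fun i j => r11_okR hX hg hcov i j, fun i j => r11_okD hX hg hcov i j,
    fun i j => r11_okDR hX hg hcov i j, fun i j => r11_okDL hX hg i j⟩

end Pool.Agent.H89.BM
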