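import Pool.Agent.H89.BM.Defs
import Pool.Agent.H62.BS.MixBaire

/-!
Project BM (`MP_6540cb_lc`), row BM-12: generic configurations are covered by frames.
-/

set_option autoImplicit false

open MeasureTheory Topology Filter Set
open Pool.Agent.H62.BS

namespace Pool.Agent.H89.BM

theorem r12_pt_zero {d : ℕ} (hd : 2 ≤ d) (i j : ℤ) : pt hd i j ⟨0, by omega⟩ = i := by
  unfold pt
  simp

theorem r12_pt_one {d : ℕ} (hd : 2 ≤ d) (i j : ℤ) : pt hd i j ⟨1, by omega⟩ = j := by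
  unfold pt
  simp

theorem r12_pt_add {d : ℕ} (hd : 2 ≤ d) (i j a b : ℤ) :
    pt hd i j + pt hd a b = pt hd (i + a) (j + b) := by
  unfold pt
  rw [Pi.single_add, Pi.single_add]
  abel

/-- the circle of radius `r` in the plane through the origin -/
noncomputable def r12_circ {d : ℕ} (hd : 2 ≤ d) (r : ℤ) : Finset (G d) :=
  ((Finset.Icc (-r) r ×ˢ Finset.Icc (-r) r).filter (fun p => nrm p.1 p.2 = r)).image
    (fun p => pt hd p.1 p.2)

/-- the closed annulus between the radii `r` and `20 r` -/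
noncomputable def r12_ann {d : ℕ} (hd : 2 ≤ d) (r : ℤ) : Finset (G d) :=
  ((Finset.Icc (-(20 * r)) (20 * r) ×ˢ Finset.Icc (-(20 * r)) (20 * r)).filter
    (fun p => r ≤ nrm p.1 p.2)).image (fun p => pt hd p.1 p.2)

theorem r12_abs_le {u v s : ℤ} (h : nrm u v ≤ s) : -s ≤ u ∧ u ≤ s ∧ -s ≤ v ∧ v ≤ s := by
  unfold nrm at h
  have h1 := abs_le.1 ((le_max_left |u| |v|).trans h)
  have h2 := abs_le.1 ((le_max_right |u| |v|).trans h)
  exact ⟨h1.1, h1.2, h2.1, h2.2⟩

theorem r12_mem_circ {d : ℕ} (hd : 2 ≤ d) (r u v : ℤ) :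
    pt hd u v ∈ r12_circ hd r ↔ nrm u v = r := by
  unfold r12_circ
  simp only [Finset.mem_image, Finset.mem_filter, Finset.mem_product, Finset.mem_Icc, Prod.exists]
  constructor
  · rintro ⟨a, b, ⟨-, h⟩, he⟩
    have h0 := congrFun he ⟨0, by omega⟩
    have h1 := congrFun he ⟨1, by omega⟩
    rw [r12_pt_zero, r12_pt_zero] at h0
    rw [r12_pt_one, r12_pt_one] at h1
    rw [← h0, ← h1]
    exact h
  · intro h
    have h1 := r12_abs_le h.le
    exact ⟨u, v, ⟨⟨⟨h1.1, h1.2.1⟩, h1.2.2.1, h1.2.2.2⟩, h⟩, rfl⟩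

theorem r12_mem_ann {d : ℕ} (hd : 2 ≤ d) {r u v : ℤ} (h : r ≤ nrm u v) (h' : nrm u v ≤ 20 * r) :
    pt hd u v ∈ r12_ann hd r := by
  unfold r12_ann
  simp only [Finset.mem_image, Finset.mem_filter, Finset.mem_product, Finset.mem_Icc, Prod.exists]
  have h1 := r12_abs_le h'
  exact ⟨u, v, ⟨⟨⟨h1.1, h1.2.1⟩, h1.2.2.1, h1.2.2.2⟩, h⟩, rfl⟩

/-- the configurations with a frame of radius `r` around the origin -/
def r12_set {d : ℕ} (hd : 2 ≤ d) (r : ℤ) : Set (FreePart d) :=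
  {x | ∀ h ∈ r12_ann hd r, (act 0 x).1 h = decide (h ∈ r12_circ hd r)}

theorem r12_fr {d : ℕ} {hd : 2 ≤ d} {r : ℤ} (hr : 8 ≤ r) {x : FreePart d}
    (hx : x ∈ r12_set hd r) : Fr (pl hd x.1) 0 0 r := by
  refine ⟨hr, fun u v => ⟨fun h => ?_, fun h h' => ?_⟩⟩
  · have h1 := hx _ (r12_mem_ann hd h.ge (by omega))
    rw [act_zero] at h1
    unfold pl
    rw [zero_add, zero_add, h1]
    exact decide_eq_true ((r12_mem_circ hd r u v).2 h)
  · have h1 := hx _ (r12_mem_ann hd h.le h')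
    rw [act_zero] at h1
    unfold pl
    rw [zero_add, zero_add, h1]
    exact decide_eq_false (fun hc => h.ne' ((r12_mem_circ hd r u v).1 hc))

theorem r12_open {d : ℕ} (hd : 2 ≤ d) (r : ℤ) : IsOpen (r12_set hd r) :=
  mb_isOpen_cyl (r12_ann hd r) 0 (fun h => decide (h ∈ r12_circ hd r))

theorem r12_dense {d : ℕ} (hd : 2 ≤ d) :
    Dense (⋃ (r : ℤ) (_ : 8 ≤ r), r12_set hd r) := by
  classical
  rw [dense_iff_inter_open]
  intro O hO hne
  obtain ⟨y, hy⟩ := hne
  obtain ⟨O', hO', rfl⟩ := isOpen_induced_iff.mp hO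
  obtain ⟨I, U, hU, hIU⟩ := isOpen_pi_iff.mp hO' y.1 hy
  obtain ⟨r, hr8, hr⟩ : ∃ r : ℤ, 8 ≤ r ∧ ∀ h ∈ I, ∀ j, |h j| < r := by
    refine ⟨8 + ∑ h ∈ I, ∑ j, |h j|, ?_, fun h hh j => ?_⟩
    · have : 0 ≤ ∑ h ∈ I, ∑ j, |h j| :=
        Finset.sum_nonneg fun h _ => Finset.sum_nonneg fun j _ => abs_nonneg _
      omega
    · have h1 : |h j| ≤ ∑ j, |h j| :=
        Finset.single_le_sum (f := fun j => |h j|) (fun _ _ => abs_nonneg _) (Finset.mem_univ j)
      have h2 : ∑ j, |h j| ≤ ∑ h ∈ I, ∑ j, |h j| :=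
        Finset.single_le_sum (f := fun h : G d => ∑ j, |h j|)
          (fun h _ => Finset.sum_nonneg fun j _ => abs_nonneg _) hh
      omega
  have hnot : ∀ u v : ℤ, r ≤ nrm u v → pt hd u v ∉ I := by
    intro u v h hI
    have h0 := hr _ hI ⟨0, by omega⟩
    have h1 := hr _ hI ⟨1, by omega⟩
    rw [r12_pt_zero] at h0
    rw [r12_pt_one] at h1
    exact absurd h (not_le.2 (max_lt h0 h1))
  set x : Conf d Bool := fun k => if k ∈ I then y.1 k else decide (k ∈ r12_circ hd r) with hx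
  have hxI : ∀ k ∈ I, x k = y.1 k := fun k hk => by rw [hx]; simp only [if_pos hk]
  have hxn : ∀ k, k ∉ I → x k = decide (k ∈ r12_circ hd r) := fun k hk => by
    rw [hx]; simp only [if_neg hk]
  have hfin : {k | x k = true}.Finite := by
    refine (Finset.finite_toSet (I ∪ r12_circ hd r)).subset (fun k hk => ?_)
    rw [Finset.mem_coe, Finset.mem_union]
    by_cases hkI : k ∈ I
    · exact Or.inl hkI
    · right
      have h1 : x k = true := hk
      rw [hxn k hkI] at h1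
      exact of_decide_eq_true h1
  have hnr : nrm r 0 = r := by
    unfold nrm
    rw [abs_zero, abs_of_nonneg (by omega)]
    exact max_eq_left (by omega)
  have h0 : x (pt hd r 0) = true := by
    rw [hxn _ (hnot r 0 hnr.ge)]
    exact decide_eq_true ((r12_mem_circ hd r r 0).2 hnr)
  refine ⟨⟨x, mb_free_of_finite hfin h0⟩, ?_, ?_⟩
  · refine hIU (fun a ha => ?_)
    change x a ∈ U a
    rw [hxI a ha]
    exact (hU a ha).2
  · simp only [mem_iUnion]
    refine ⟨r, hr8, fun h hh => ?_⟩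
    rw [act_zero]
    refine hxn h ?_
    unfold r12_ann at hh
    simp only [Finset.mem_image, Finset.mem_filter, Finset.mem_product, Finset.mem_Icc,
      Prod.exists] at hh
    obtain ⟨a, b, ⟨-, hab⟩, rfl⟩ := hh
    exact hnot a b hab

theorem residual_cov {d : ℕ} (hd : 2 ≤ d) :
    ∀ᶠ x in residual (FreePart d), ∀ g i j, Cov (pl hd (act g x).1) i j := by
  have h1 : ∀ᶠ x in residual (FreePart d), ∃ r, Fr (pl hd x.1) 0 0 r := by
    have hopen : IsOpen (⋃ (r : ℤ) (_ : 8 ≤ r), r12_set hd r) :=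
      isOpen_iUnion fun r => isOpen_iUnion fun _ => r12_open hd r
    filter_upwards [residual_of_dense_open hopen (r12_dense hd)] with x hx
    simp only [mem_iUnion] at hx
    obtain ⟨r, hr, hx⟩ := hx
    exact ⟨r, r12_fr hr hx⟩
  filter_upwards [residual_all_act h1] with x hx g i j
  obtain ⟨r, hr8, hr⟩ := hx (pt hd i j + g)
  have key : ∀ u v : ℤ, pl hd (act (pt hd i j + g) x).1 u v = pl hd (act g x).1 (u + i) (v + j) := by
    intro u v
    unfold pl
    rw [act_val, act_val, ← add_assoc, r12_pt_add]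
  refine ⟨i, j, r, ⟨hr8, fun u v => ⟨fun h => ?_, fun h h' => ?_⟩⟩, ?_⟩
  · have h2 := (hr u v).1 h
    rw [key, zero_add, zero_add] at h2
    rwa [add_comm i u, add_comm j v]
  · have h2 := (hr u v).2 h h'
    rw [key, zero_add, zero_add] at h2
    rwa [add_comm i u, add_comm j v]
  · unfold nrm
    simp only [sub_self, abs_zero, max_self]
    omega

end Pool.Agent.H89.BM
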