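import Pool.Agent.H89.BM.Defs

/-!
Project BM (`MP_6540cb_lc`), row BM-13: the labels and the parities are shift covariant.
-/

open MeasureTheory Topology Filter Set
open Pool.Agent.H62.BS

namespace Pool.Agent.H89.BM

theorem r13_fr (X : ℤ → ℤ → Bool) (p q a b r : ℤ) :
    Fr (fun u v => X (u + p) (v + q)) a b r ↔ Fr X (a + p) (b + q) r := by
  unfold Fr
  have h : ∀ u v : ℤ, X (a + u + p) (b + v + q) = X (a + p + u) (b + q + v) := by
    intro u v
    rw [add_right_comm a u p, add_right_comm b v q]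
  simp only [h]

theorem r13_has (X : ℤ → ℤ → Bool) (p q i j : ℤ) :
    hasLab (fun u v => X (u + p) (v + q)) i j = hasLab X (i + p) (j + q) := by
  funext l
  apply propext
  unfold hasLab
  refine and_congr_right fun _ => ⟨?_, ?_⟩
  · rintro ⟨a, b, r, h, hc⟩
    refine ⟨a + p, b + q, r, (r13_fr X p q a b r).1 h, ?_⟩
    rwa [add_sub_add_right_eq_sub, add_sub_add_right_eq_sub]
  · rintro ⟨a, b, r, h, hc⟩
    refine ⟨a - p, b - q, r, (r13_fr X p q _ _ r).2 ?_, ?_⟩
    · rwa [sub_add_cancel, sub_add_cancel]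
    · have h1 : i - (a - p) = i + p - a := by ring
      have h2 : j - (b - q) = j + q - b := by ring
      rwa [h1, h2]

theorem labX_shift (X : ℤ → ℤ → Bool) (p q i j : ℤ) :
    labX (fun u v => X (u + p) (v + q)) i j = labX X (i + p) (j + q) := by
  unfold labX
  rw [r13_has X p q i j]

/-- the predicate in the definition of the parity -/
def r13_P (X : ℤ → ℤ → Bool) (i j : ℤ) : Prop :=
  ∃ a b r, Fr X a b r ∧ inNest r (i - a) (j - b) ∧
    (∀ a' b' r', Fr X a' b' r' → inNest r' (i - a') (j - b') → r ≤ r') ∧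
    Odd ((i - a) + (j - b))

theorem r13_par (X : ℤ → ℤ → Bool) (p q i j : ℤ) :
    r13_P (fun u v => X (u + p) (v + q)) i j ↔ r13_P X (i + p) (j + q) := by
  constructor
  · rintro ⟨a, b, r, h, hn, hm, ho⟩
    have e1 : i + p - (a + p) = i - a := by ring
    have e2 : j + q - (b + q) = j - b := by ring
    refine ⟨a + p, b + q, r, (r13_fr X p q a b r).1 h, ?_, ?_, ?_⟩
    · rwa [e1, e2]
    · intro a' b' r' h' hn'
      refine hm (a' - p) (b' - q) r' ((r13_fr X p q _ _ r').2 ?_) ?_
      · rwa [sub_add_cancel, sub_add_cancel]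
      · have h1 : i - (a' - p) = i + p - a' := by ring
        have h2 : j - (b' - q) = j + q - b' := by ring
        rwa [h1, h2]
    · rwa [e1, e2]
  · rintro ⟨a, b, r, h, hn, hm, ho⟩
    have e1 : i - (a - p) = i + p - a := by ring
    have e2 : j - (b - q) = j + q - b := by ring
    refine ⟨a - p, b - q, r, (r13_fr X p q _ _ r).2 ?_, ?_, ?_, ?_⟩
    · rwa [sub_add_cancel, sub_add_cancel]
    · rwa [e1, e2]
    · intro a' b' r' h' hn'
      refine hm (a' + p) (b' + q) r' ((r13_fr X p q _ _ r').1 h') ?_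
      rwa [add_sub_add_right_eq_sub, add_sub_add_right_eq_sub]
    · rwa [e1, e2]

theorem parX_shift (X : ℤ → ℤ → Bool) (p q i j : ℤ) :
    parX (fun u v => X (u + p) (v + q)) i j = parX X (i + p) (j + q) := by
  unfold parX
  exact decide_eq_decide.2 (r13_par X p q i j)

theorem r13_pt_add {d : ℕ} (hd : 2 ≤ d) (i j a b : ℤ) :
    pt hd i j + pt hd a b = pt hd (i + a) (j + b) := by
  unfold pt
  rw [Pi.single_add, Pi.single_add]
  abel

theorem T0_act {d : ℕ} (hd : 2 ≤ d) (g : G d) (x : FreePart d) :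
    T0 hd (act g x) = sh g (T0 hd x) := by
  funext h
  unfold T0 sh
  rw [act_act]

theorem r13_pl {d : ℕ} (hd : 2 ≤ d) (g : G d) (x : FreePart d) (i j : ℤ) :
    pl hd (act (pt hd i j + g) x).1 = fun u v => pl hd (act g x).1 (u + i) (v + j) := by
  funext u v
  unfold pl
  rw [act_val, act_val, ← r13_pt_add, add_assoc]

theorem T0_win {d : ℕ} (hd : 2 ≤ d) (g : G d) (x : FreePart d) (i j : ℤ) :
    win hd (sh g (T0 hd x)) i j = (labX (pl hd (act g x).1) i j, parX (pl hd (act g x).1) i j) := by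
  unfold win sh T0
  rw [Equiv.symm_apply_apply, r13_pl, labX_shift, parX_shift, zero_add, zero_add]

end Pool.Agent.H89.BM
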