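import Pool.Agent.H89.BM.Defs
import Pool.Agent.H89.BM.R10

/-!
Project BM (`MP_6540cb_lc`), row BM-14: measurability of the map.
-/

open MeasureTheory Topology Filter Set
open Pool.Agent.H62.BS

namespace Pool.Agent.H89.BM

theorem r14_pl {d : ℕ} (hd : 2 ≤ d) (i j : ℤ) (c : Bool) :
    Measurable fun x : FreePart d => pl hd x.1 i j = c := by
  have h1 : Measurable fun x : FreePart d => pl hd x.1 i j :=
    (measurable_pi_apply (pt hd i j)).comp measurable_subtype_coe
  exact measurableSet_setOfPred.1 (h1 (MeasurableSet.singleton c))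

theorem r14_fr {d : ℕ} (hd : 2 ≤ d) (a b r : ℤ) :
    Measurable fun x : FreePart d => Fr (pl hd x.1) a b r := by
  unfold Fr
  refine measurable_const.and (Measurable.forall fun u => Measurable.forall fun v => ?_)
  exact (measurable_const.imp (r14_pl hd _ _ _)).and
    (measurable_const.imp (measurable_const.imp (r14_pl hd _ _ _)))

theorem r14_hasLab {d : ℕ} (hd : 2 ≤ d) (i j : ℤ) (l : Lab) :
    Measurable fun x : FreePart d => hasLab (pl hd x.1) i j l := by
  unfold hasLab
  refine measurable_const.and (Measurable.exists fun a => Measurable.exists fun b =>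
    Measurable.exists fun r => ?_)
  exact (r14_fr hd a b r).and measurable_const

theorem r14_par {d : ℕ} (hd : 2 ≤ d) (i j : ℤ) (c : Bool) :
    Measurable fun x : FreePart d => parX (pl hd x.1) i j = c := by
  have h1 : Measurable fun x : FreePart d => (∃ a b r, Fr (pl hd x.1) a b r ∧
      inNest r (i - a) (j - b) ∧
      (∀ a' b' r', Fr (pl hd x.1) a' b' r' → inNest r' (i - a') (j - b') → r ≤ r') ∧
      Odd ((i - a) + (j - b))) := by
    refine Measurable.exists fun a => Measurable.exists fun b => Measurable.exists fun r => ?_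
    refine (r14_fr hd a b r).and (measurable_const.and (Measurable.and ?_ measurable_const))
    refine Measurable.forall fun a' => Measurable.forall fun b' => Measurable.forall fun r' => ?_
    exact (r14_fr hd a' b' r').imp measurable_const
  cases c
  · have e : (fun x : FreePart d => parX (pl hd x.1) i j = false) = fun x : FreePart d =>
        ¬ (∃ a b r, Fr (pl hd x.1) a b r ∧ inNest r (i - a) (j - b) ∧
      (∀ a' b' r', Fr (pl hd x.1) a' b' r' → inNest r' (i - a') (j - b') → r ≤ r') ∧
      Odd ((i - a) + (j - b))) := by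
      funext x
      classical
      unfold parX
      exact propext (@decide_eq_false_iff_not _ (Classical.propDecidable _))
    rw [e]
    exact h1.not
  · have e : (fun x : FreePart d => parX (pl hd x.1) i j = true) = fun x : FreePart d =>
        (∃ a b r, Fr (pl hd x.1) a b r ∧ inNest r (i - a) (j - b) ∧
      (∀ a' b' r', Fr (pl hd x.1) a' b' r' → inNest r' (i - a') (j - b') → r ≤ r') ∧
      Odd ((i - a) + (j - b))) := by
      funext x
      classical
      unfold parX
      exact propext (@decide_eq_true_iff _ (Classical.propDecidable _))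
    rw [e]
    exact h1

theorem r14_lab_iff {X : ℤ → ℤ → Bool} (hX : FrCases X) (hg : CellGeo) {i j : ℤ} {l : Lab}
    (hl : l ≠ Lab.O) : labX X i j = l ↔ hasLab X i j l := by
  constructor
  · intro h
    obtain ⟨a, b, r, h1, h2⟩ := labX_ne (X := X) (i := i) (j := j) (by rw [h]; exact hl)
    exact ⟨hl, a, b, r, h1, by rw [h2, h]⟩
  · rintro ⟨-, a, b, r, h1, h2⟩
    rw [labX_eq hX hg h1 (by rw [h2]; exact hl) (by simp) (by simp), h2]

theorem r14_lab_O {X : ℤ → ℤ → Bool} (hX : FrCases X) (hg : CellGeo) {i j : ℤ} :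
    labX X i j = Lab.O ↔ ¬ ∃ l, hasLab X i j l := by
  constructor
  · rintro h ⟨l, hl⟩
    have := (r14_lab_iff hX hg hl.1).2 hl
    exact hl.1 (this.symm.trans h)
  · intro h
    unfold labX
    rw [dif_neg h]

theorem r14_lab {d : ℕ} (hd : 2 ≤ d) (hX : ∀ X, FrCases X) (hg : CellGeo) (i j : ℤ) (l : Lab) :
    Measurable fun x : FreePart d => labX (pl hd x.1) i j = l := by
  by_cases hl : l = Lab.O
  · rw [hl]
    simp only [r14_lab_O (hX _) hg]
    exact (Measurable.exists fun l => r14_hasLab hd i j l).not
  · simp only [r14_lab_iff (hX _) hg hl]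
    exact r14_hasLab hd i j l

theorem T0_meas {d : ℕ} (hd : 2 ≤ d) (hX : ∀ X, FrCases X) (hg : CellGeo) (g : G d) (a : Fin 22) :
    MeasurableSet {x : FreePart d | T0 hd x g = a} := by
  have e : {x : FreePart d | T0 hd x g = a} = act g ⁻¹' {x : FreePart d |
      labX (pl hd x.1) 0 0 = (num.symm a).1 ∧ parX (pl hd x.1) 0 0 = (num.symm a).2} := by
    ext x
    show num (labX (pl hd (act g x).1) 0 0, parX (pl hd (act g x).1) 0 0) = a ↔ _
    rw [Equiv.apply_eq_iff_eq_symm_apply, Prod.ext_iff]
    rfl
  rw [e]
  exact measurable_act g (measurableSet_setOfPred.2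
    ((r14_lab hd hX hg 0 0 _).and (r14_par hd 0 0 _)))

end Pool.Agent.H89.BM
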