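import Pool.Agent.H89.BM.Defs

/-!
Project BM, row BM-15: from an almost everywhere defined map to a map.
-/

open MeasureTheory Topology Filter Set
open Pool.Agent.H62.BS

namespace Pool.Agent.H89.BM

/-- the orbit equivalence relation -/
def r15_setoid (d : ℕ) : Setoid (FreePart d) where
  r x y := ∃ g, act g x = y
  iseqv := by
    refine ⟨fun x => ⟨0, act_zero x⟩, ?_, ?_⟩
    · rintro x y ⟨g, rfl⟩
      exact ⟨-g, by rw [act_act, neg_add_cancel, act_zero]⟩
    · rintro x y z ⟨g, rfl⟩ ⟨h, rfl⟩
      exact ⟨h + g, by rw [act_act]⟩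

/-- a representative of the orbit -/
noncomputable def r15_rep {d : ℕ} (x : FreePart d) : FreePart d :=
  (Quotient.mk (r15_setoid d) x).out

theorem r15_rep_spec {d : ℕ} (x : FreePart d) : ∃ g, act g (r15_rep x) = x :=
  @Quotient.mk_out _ (r15_setoid d) x

theorem r15_rep_act {d : ℕ} (g : G d) (x : FreePart d) : r15_rep (act g x) = r15_rep x := by
  unfold r15_rep
  congr 1
  refine Quotient.sound (s := r15_setoid d) ?_
  exact ⟨-g, by rw [act_act, neg_add_cancel, act_zero]⟩

/-- the element which moves the representative to the point -/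
noncomputable def r15_el {d : ℕ} (x : FreePart d) : G d := (r15_rep_spec x).choose

theorem r15_el_spec {d : ℕ} (x : FreePart d) : act (r15_el x) (r15_rep x) = x :=
  (r15_rep_spec x).choose_spec

theorem r15_el_act {d : ℕ} (g : G d) (x : FreePart d) : r15_el (act g x) = g + r15_el x := by
  have h1 := r15_el_spec (act g x)
  rw [r15_rep_act] at h1
  refine act_inj (x := r15_rep x) ?_
  rw [h1, ← act_act, r15_el_spec]

theorem r15_meas {d : ℕ} {A : Type} [Finite A] [TopologicalSpace A] [DiscreteTopology A]
    (T : FreePart d → Conf d A) (hm : ∀ g a, MeasurableSet {x | T x g = a})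
    {B : Set (Conf d A)} (hB : MeasurableSet[borel (Conf d A)] B) : MeasurableSet (T ⁻¹' B) := by
  let _ : MeasurableSpace A := borel A
  have : BorelSpace A := ⟨rfl⟩
  have : Countable A := Finite.to_countable
  have hT : Measurable T := by
    refine measurable_pi_iff.2 fun g => ?_
    exact measurable_to_countable' fun a => hm g a
  refine hT ?_
  have e : (MeasurableSpace.pi : MeasurableSpace (Conf d A)) = borel (Conf d A) :=
    (Pi.borelSpace (X := fun _ : G d => A)).measurable_eq
  rw [e]
  exact hB

theorem baireMap_of {d : ℕ} {A : Type} [Finite A] [TopologicalSpace A] [DiscreteTopology A]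
    {S : Set (Conf d A)} (hS : ∀ (g : G d) z, z ∈ S → sh g z ∈ S) (hne : S.Nonempty)
    (T : FreePart d → Conf d A) (hm : ∀ g a, MeasurableSet {x | T x g = a})
    (he : ∀ g x, T (act g x) = sh g (T x)) (hr : ∀ᶠ x in residual (FreePart d), T x ∈ S) :
    BaireMap S := by
  classical
  obtain ⟨s0, hs0⟩ := hne
  have hinv : ∀ g x, T (act g x) ∈ S ↔ T x ∈ S := by
    intro g x
    constructor
    · intro h
      have h1 := hS (-g) _ h
      rw [he, sh_sh, neg_add_cancel, sh_zero] at h1
      exact h1
    · intro h
      rw [he]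
      exact hS g _ h
  refine ⟨fun x => if T x ∈ S then T x else sh (r15_el x) s0, ?_, ?_, ?_⟩
  · intro x
    by_cases h : T x ∈ S
    · simp only [h, if_true]
    · simp only [h, if_false]
      exact hS _ _ hs0
  · intro g x
    by_cases h : T x ∈ S
    · have h' := (hinv g x).2 h
      simp only [h, h', if_true]
      exact he g x
    · have h' : T (act g x) ∉ S := fun hh => h ((hinv g x).1 hh)
      simp only [h, h', if_false]
      rw [r15_el_act, sh_sh]
  · intro B hB
    have h1 : BaireMeasurableSet (T ⁻¹' B) := (r15_meas T hm hB).baireMeasurableSet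
    refine h1.congr ?_
    refine eventuallyEq_set.2 ?_
    filter_upwards [hr] with x hx
    simp only [mem_preimage, hx, if_true]

end Pool.Agent.H89.BM
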