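import Pool.Agent.H89.BM.Defs

/-!
BM-16: subshifts of finite type given by a local rule
-/

open MeasureTheory Topology Filter Set
open Pool.Agent.H62.BS

namespace Pool.Agent.H89.BM

theorem isSFT_of_local {d : ℕ} {A : Type} [Finite A] (D : Finset (G d)) (R : Conf d A → Prop)
    (hR : ∀ z z', (∀ h ∈ D, z h = z' h) → R z → R z') :
    Pool.Agent.H89.MAL.IsSFT {z : Conf d A | ∀ g, R (sh g z)} := by
  classical
  refine ⟨{P | ∃ z : Conf d A, ¬ R z ∧ P = ⟨D, fun h => z h⟩}, ?_, ?_⟩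
  · refine ((finite_univ (α := D → A)).image
      (fun p => (⟨D, p⟩ : Σ D : Finset (G d), (D → A)))).subset ?_
    rintro P ⟨z, -, rfl⟩
    exact ⟨fun h => z h, mem_univ _, rfl⟩
  · ext x
    constructor
    · rintro hx P ⟨z, hz, rfl⟩ g h
      exact hz (hR (sh g x) z (fun u hu => h ⟨u, hu⟩) (hx g))
    · intro hx g
      by_contra hg
      exact hx ⟨D, fun h => sh g x h⟩ ⟨sh g x, hg, rfl⟩ g (fun h => rfl)

end Pool.Agent.H89.BM
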