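import Pool.Agent.H89.BM.Defs

/-!
Project BM (`MP_6540cb_lc`), row BM-2: vertical and diagonal lines of an object have the same depth.
-/

namespace Pool.Agent.H89.BM

/-- a run of `b` after `a` that cannot reach `N` stops at a `c` -/
theorem r2_run (f : ℕ → Lab) (a b c : Lab) (N : ℕ) (hN1 : 1 ≤ N) (h0 : f 0 = a)
    (hstep : ∀ s, s < N → (f s = a ∨ f s = b) → f (s + 1) = b ∨ f (s + 1) = c)
    (hb : f N ≠ b) (hc : f N ≠ c) :
    ∃ m, 1 ≤ m ∧ m < N ∧ f m = c ∧ ∀ s, 1 ≤ s → s < m → f s = b := by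
  classical
  have hex : ∃ t, ¬ (t = 0 ∨ f t = b) := ⟨N, by
    rintro (h | h)
    · omega
    · exact hb h⟩
  obtain ⟨t, ht, hmin⟩ : ∃ t, ¬ (t = 0 ∨ f t = b) ∧ ∀ s, s < t → (s = 0 ∨ f s = b) :=
    ⟨Nat.find hex, Nat.find_spec hex, fun s hs => not_not.1 (Nat.find_min hex hs)⟩
  have htN : t ≤ N := by
    by_contra hlt
    rcases hmin N (by omega) with h | h
    · omega
    · exact hb h
  have ht0 : t ≠ 0 := fun h => ht (Or.inl h)
  have htb : f t ≠ b := fun h => ht (Or.inr h)
  obtain ⟨s, rfl⟩ := Nat.exists_eq_succ_of_ne_zero ht0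
  have hs : f s = a ∨ f s = b := by
    rcases hmin s (Nat.lt_succ_self s) with h | h
    · left; rw [h]; exact h0
    · right; exact h
  have hc' : f (s + 1) = c := (hstep s (by omega) hs).resolve_left htb
  refine ⟨s + 1, by omega, ?_, hc', fun q hq1 hq => ?_⟩
  · rcases Nat.lt_or_ge (s + 1) N with h | h
    · exact h
    · have : s + 1 = N := le_antisymm htN h
      rw [this] at hc'
      exact absurd hc' hc
  · rcases hmin q hq with h | h
    · omega
    · exact h

theorem r2_isM {l : Lab} (h : isM l) : l = Lab.M false ∨ l = Lab.M true := by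
  obtain ⟨b, rfl⟩ := h
  cases b
  · exact Or.inl rfl
  · exact Or.inr rfl

theorem r2_isY {l : Lab} (h : isY l) : l = Lab.Y false ∨ l = Lab.Y true := by
  obtain ⟨b, rfl⟩ := h
  cases b
  · exact Or.inl rfl
  · exact Or.inr rfl

/-- the vertical line does not end before the diagonal one -/
theorem r2_bad1 {w : ℤ → ℤ → Sym} (hw : Grid w) : ∀ (n : ℕ) (i j : ℤ), 1 ≤ n →
    (w i j).1 = Lab.A → (∀ t : ℕ, 1 ≤ t → t < n → (w i (j - t)).1 = Lab.M false) →
    (w i (j - n)).1 = Lab.M true → (w (i + n) (j - n)).1 = Lab.Y false → False := by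
  intro n
  induction n using Nat.strong_induction_on with
  | _ n ih =>
  intro i j hn hA hM hMt hYf
  -- to the right
  obtain ⟨c, hc1, hcn, hcY, hcD⟩ := r2_run (fun s => (w (i + s) (j - n)).1) (Lab.M true) Lab.D
    (Lab.Y true) n hn (by simpa using hMt)
    (fun s _ h => by
      have h1 := (hw.r (i + s) (j - n)).r3 h
      have e : (i + ((s + 1 : ℕ) : ℤ)) = i + s + 1 := by push_cast; ring
      show (w (i + ((s + 1 : ℕ) : ℤ)) (j - n)).1 = _ ∨ (w (i + ((s + 1 : ℕ) : ℤ)) (j - n)).1 = _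
      rw [e]
      exact h1)
    (by show (w (i + n) (j - n)).1 ≠ _; rw [hYf]; decide)
    (by show (w (i + n) (j - n)).1 ≠ _; rw [hYf]; decide)
  -- up to the left
  obtain ⟨k, hk1, hkc, hkA, hkY⟩ := r2_run (fun s => (w (i + c - s) (j - n + s)).1)
    (Lab.Y true) (Lab.Y false) Lab.A c hc1 (by simpa using hcY)
    (fun s _ h => by
      have h0 : isY (w (i + c - s) (j - n + s)).1 := by
        rcases h with h | h
        · exact ⟨_, h⟩
        · exact ⟨_, h⟩
      have h1 := (hw.dr (i + c - s - 1) (j - n + s + 1)).e2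
      rw [show i + c - s - 1 + 1 = i + (c : ℤ) - s by ring,
        show j - n + s + 1 - 1 = j - (n : ℤ) + s by ring] at h1
      have h2 := (h1 h0).1
      show (w (i + c - ((s + 1 : ℕ) : ℤ)) (j - n + ((s + 1 : ℕ) : ℤ))).1 = _ ∨
        (w (i + c - ((s + 1 : ℕ) : ℤ)) (j - n + ((s + 1 : ℕ) : ℤ))).1 = _
      rw [show i + (c : ℤ) - ((s + 1 : ℕ) : ℤ) = i + c - s - 1 by push_cast; ring,
        show j - (n : ℤ) + ((s + 1 : ℕ) : ℤ) = j - n + s + 1 by push_cast; ring]
      exact h2.symm)
    (by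
      have h1 := hM (n - c) (by omega) (by omega)
      show (w (i + c - c) (j - n + c)).1 ≠ _
      rw [show i + (c : ℤ) - c = i by ring,
        show j - (n : ℤ) + c = j - ((n - c : ℕ) : ℤ) by push_cast [hcn.le]; ring, h1]
      decide)
    (by
      have h1 := hM (n - c) (by omega) (by omega)
      show (w (i + c - c) (j - n + c)).1 ≠ _
      rw [show i + (c : ℤ) - c = i by ring,
        show j - (n : ℤ) + c = j - ((n - c : ℕ) : ℤ) by push_cast [hcn.le]; ring, h1]
      decide)
  -- down from the apex of that line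
  obtain ⟨m, hm1, hmk, hmM, hmF⟩ := r2_run (fun s => (w (i + c - k) (j - n + k - s)).1)
    Lab.A (Lab.M false) (Lab.M true) k hk1 (by simpa using hkA)
    (fun s _ h => by
      have h1 := (hw.d (i + c - k) (j - n + k - s)).d1 h
      show (w (i + c - k) (j - n + k - ((s + 1 : ℕ) : ℤ))).1 = _ ∨
        (w (i + c - k) (j - n + k - ((s + 1 : ℕ) : ℤ))).1 = _
      rw [show j - (n : ℤ) + k - ((s + 1 : ℕ) : ℤ) = j - n + k - s - 1 by push_cast; ring]
      exact r2_isM h1)
    (by
      have h1 := hcD (c - k) (by omega) (by omega)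
      show (w (i + c - k) (j - n + k - k)).1 ≠ _
      have h2 : (w (i + ((c - k : ℕ) : ℤ)) (j - n)).1 = Lab.D := h1
      rw [show i + (c : ℤ) - k = i + ((c - k : ℕ) : ℤ) by push_cast [hkc.le]; ring,
        show j - (n : ℤ) + k - k = j - n by ring, h2]
      decide)
    (by
      have h1 := hcD (c - k) (by omega) (by omega)
      show (w (i + c - k) (j - n + k - k)).1 ≠ _
      have h2 : (w (i + ((c - k : ℕ) : ℤ)) (j - n)).1 = Lab.D := h1
      rw [show i + (c : ℤ) - k = i + ((c - k : ℕ) : ℤ) by push_cast [hkc.le]; ring,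
        show j - (n : ℤ) + k - k = j - n by ring, h2]
      decide)
  refine ih m (by omega) (i + c - k) (j - n + k) hm1 hkA hmF hmM ?_
  have h1 : (w (i + c - ((k - m : ℕ) : ℤ)) (j - n + ((k - m : ℕ) : ℤ))).1 = Lab.Y false :=
    hkY (k - m) (by omega) (by omega)
  rw [show i + (c : ℤ) - k + m = i + c - ((k - m : ℕ) : ℤ) by push_cast [hmk.le]; ring,
    show j - (n : ℤ) + k - m = j - n + ((k - m : ℕ) : ℤ) by push_cast [hmk.le]; ring]
  exact h1

/-- the diagonal line does not end before the vertical one -/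
theorem r2_bad2 {w : ℤ → ℤ → Sym} (hw : Grid w) : ∀ (n : ℕ) (i j : ℤ), 1 ≤ n →
    (w i j).1 = Lab.A → (∀ t : ℕ, 1 ≤ t → t < n → (w (i + t) (j - t)).1 = Lab.Y false) →
    (w i (j - n)).1 = Lab.M false → (w (i + n) (j - n)).1 = Lab.Y true → False := by
  intro n
  induction n using Nat.strong_induction_on with
  | _ n ih =>
  intro i j hn hA hY hMf hYt
  -- to the left
  obtain ⟨q, hq1, hqn, hqM, hqD⟩ := r2_run (fun s => (w (i + n - s) (j - n)).1) (Lab.Y true)
    Lab.D (Lab.M true) n hn (by simpa using hYt)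
    (fun s _ h => by
      have h1 := (hw.r (i + n - s - 1) (j - n)).r4
      rw [show i + n - s - 1 + 1 = i + (n : ℤ) - s by ring] at h1
      show (w (i + n - ((s + 1 : ℕ) : ℤ)) (j - n)).1 = _ ∨
        (w (i + n - ((s + 1 : ℕ) : ℤ)) (j - n)).1 = _
      rw [show i + (n : ℤ) - ((s + 1 : ℕ) : ℤ) = i + n - s - 1 by push_cast; ring]
      exact h1 h.symm)
    (by
      show (w (i + n - n) (j - n)).1 ≠ _
      rw [show i + (n : ℤ) - n = i by ring, hMf]
      decide)
    (by
      show (w (i + n - n) (j - n)).1 ≠ _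
      rw [show i + (n : ℤ) - n = i by ring, hMf]
      decide)
  -- up
  obtain ⟨k, hk1, hkq, hkA, hkM⟩ := r2_run (fun s => (w (i + n - q) (j - n + s)).1)
    (Lab.M true) (Lab.M false) Lab.A q hq1 (by simpa using hqM)
    (fun s _ h => by
      have h0 : isM (w (i + n - q) (j - n + s)).1 := by
        rcases h with h | h
        · exact ⟨_, h⟩
        · exact ⟨_, h⟩
      have h1 := (hw.d (i + n - q) (j - n + s + 1)).d2
      rw [show j - n + s + 1 - 1 = j - (n : ℤ) + s by ring] at h1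
      have h2 := (h1 h0).1
      show (w (i + n - q) (j - n + ((s + 1 : ℕ) : ℤ))).1 = _ ∨
        (w (i + n - q) (j - n + ((s + 1 : ℕ) : ℤ))).1 = _
      rw [show j - (n : ℤ) + ((s + 1 : ℕ) : ℤ) = j - n + s + 1 by push_cast; ring]
      exact h2.symm)
    (by
      have h1 := hY (n - q) (by omega) (by omega)
      show (w (i + n - q) (j - n + q)).1 ≠ _
      rw [show i + (n : ℤ) - q = i + ((n - q : ℕ) : ℤ) by push_cast [hqn.le]; ring,
        show j - (n : ℤ) + q = j - ((n - q : ℕ) : ℤ) by push_cast [hqn.le]; ring, h1]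
      decide)
    (by
      have h1 := hY (n - q) (by omega) (by omega)
      show (w (i + n - q) (j - n + q)).1 ≠ _
      rw [show i + (n : ℤ) - q = i + ((n - q : ℕ) : ℤ) by push_cast [hqn.le]; ring,
        show j - (n : ℤ) + q = j - ((n - q : ℕ) : ℤ) by push_cast [hqn.le]; ring, h1]
      decide)
  -- down to the right from the apex of that line
  obtain ⟨m, hm1, hmk, hmY, hmF⟩ := r2_run
    (fun s => (w (i + n - q + s) (j - n + k - s)).1)
    Lab.A (Lab.Y false) (Lab.Y true) k hk1 (by simpa using hkA)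
    (fun s _ h => by
      have h1 := (hw.dr (i + n - q + s) (j - n + k - s)).e1 h
      show (w (i + n - q + ((s + 1 : ℕ) : ℤ)) (j - n + k - ((s + 1 : ℕ) : ℤ))).1 = _ ∨
        (w (i + n - q + ((s + 1 : ℕ) : ℤ)) (j - n + k - ((s + 1 : ℕ) : ℤ))).1 = _
      rw [show i + (n : ℤ) - q + ((s + 1 : ℕ) : ℤ) = i + n - q + s + 1 by push_cast; ring,
        show j - (n : ℤ) + k - ((s + 1 : ℕ) : ℤ) = j - n + k - s - 1 by push_cast; ring]
      exact r2_isY h1)
    (by
      have h1 : (w (i + n - ((q - k : ℕ) : ℤ)) (j - n)).1 = Lab.D :=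
        hqD (q - k) (by omega) (by omega)
      show (w (i + n - q + k) (j - n + k - k)).1 ≠ _
      rw [show i + (n : ℤ) - q + k = i + n - ((q - k : ℕ) : ℤ) by push_cast [hkq.le]; ring,
        show j - (n : ℤ) + k - k = j - n by ring, h1]
      decide)
    (by
      have h1 : (w (i + n - ((q - k : ℕ) : ℤ)) (j - n)).1 = Lab.D :=
        hqD (q - k) (by omega) (by omega)
      show (w (i + n - q + k) (j - n + k - k)).1 ≠ _
      rw [show i + (n : ℤ) - q + k = i + n - ((q - k : ℕ) : ℤ) by push_cast [hkq.le]; ring,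
        show j - (n : ℤ) + k - k = j - n by ring, h1]
      decide)
  refine ih m (by omega) (i + n - q) (j - n + k) hm1 hkA hmF ?_ hmY
  have h1 : (w (i + n - q) (j - n + ((k - m : ℕ) : ℤ))).1 = Lab.M false :=
    hkM (k - m) (by omega) (by omega)
  rw [show j - (n : ℤ) + k - m = j - n + ((k - m : ℕ) : ℤ) by push_cast [hmk.le]; ring]
  exact h1

theorem sync_M {w : ℤ → ℤ → Sym} (hw : Grid w) {i j : ℤ} {k : ℕ} (h : MD w i j k) :
    YD w (i + k) j k := by
  obtain ⟨hk, hM, hF, hA⟩ := h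
  have hF' : ∀ t : ℕ, 1 ≤ t → t < k → (w i (j + k - t)).1 = Lab.M false := by
    intro t h1 h2
    have h3 := hF (k - t) (by omega) (by omega)
    rwa [show j + ((k - t : ℕ) : ℤ) = j + k - t by push_cast [h2.le]; ring] at h3
  have key : ∀ t : ℕ, 1 ≤ t → t ≤ k → isY (w (i + t) (j + k - t)).1 ∧
      (t < k → (w (i + t) (j + k - t)).1 = Lab.Y false) := by
    intro t
    induction t using Nat.strong_induction_on with
    | _ t ih =>
    intro h1 h2
    have hy : isY (w (i + t) (j + k - t)).1 := by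
      rcases Nat.eq_or_lt_of_le h1 with h3 | h3
      · have h4 := (hw.dr i (j + k)).e1 (Or.inl hA)
        rw [← h3]
        push_cast
        exact h4
      · have h4 := (hw.dr (i + ((t - 1 : ℕ) : ℤ)) (j + k - ((t - 1 : ℕ) : ℤ))).e1
          (Or.inr ((ih (t - 1) (by omega) (by omega) (by omega)).2 (by omega)))
        rw [show i + ((t - 1 : ℕ) : ℤ) + 1 = i + t by push_cast [h1]; ring,
          show j + k - ((t - 1 : ℕ) : ℤ) - 1 = j + k - t by push_cast [h1]; ring] at h4
        exact h4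
    refine ⟨hy, fun h3 => ?_⟩
    rcases r2_isY hy with h4 | h4
    · exact h4
    · exact (r2_bad2 hw t i (j + k) h1 hA
        (fun s hs1 hs2 => (ih s hs2 hs1 (by omega)).2 (by omega)) (hF' t h1 h3) h4).elim
  refine ⟨hk, ?_, fun t h1 h2 => ?_, ?_⟩
  · have h1 := (key k hk le_rfl).1
    rwa [show j + (k : ℤ) - k = j by ring] at h1
  · have h3 := (key (k - t) (by omega) (by omega)).2 (by omega)
    rwa [show i + ((k - t : ℕ) : ℤ) = i + k - t by push_cast [h2.le]; ring,
      show j + (k : ℤ) - ((k - t : ℕ) : ℤ) = j + t by push_cast [h2.le]; ring] at h3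
  · rw [show i + (k : ℤ) - k = i by ring]
    exact hA

theorem sync_Y {w : ℤ → ℤ → Sym} (hw : Grid w) {i j : ℤ} {k : ℕ} (h : YD w i j k) :
    MD w (i - k) j k := by
  obtain ⟨hk, hY, hF, hA⟩ := h
  have hF' : ∀ t : ℕ, 1 ≤ t → t < k → (w (i - k + t) (j + k - t)).1 = Lab.Y false := by
    intro t h1 h2
    have h3 := hF (k - t) (by omega) (by omega)
    rwa [show i - ((k - t : ℕ) : ℤ) = i - k + t by push_cast [h2.le]; ring,
      show j + ((k - t : ℕ) : ℤ) = j + k - t by push_cast [h2.le]; ring] at h3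
  have key : ∀ t : ℕ, 1 ≤ t → t ≤ k → isM (w (i - k) (j + k - t)).1 ∧
      (t < k → (w (i - k) (j + k - t)).1 = Lab.M false) := by
    intro t
    induction t using Nat.strong_induction_on with
    | _ t ih =>
    intro h1 h2
    have hy : isM (w (i - k) (j + k - t)).1 := by
      rcases Nat.eq_or_lt_of_le h1 with h3 | h3
      · have h4 := (hw.d (i - k) (j + k)).d1 (Or.inl hA)
        rw [← h3]
        push_cast
        exact h4
      · have h4 := (hw.d (i - k) (j + k - ((t - 1 : ℕ) : ℤ))).d1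
          (Or.inr ((ih (t - 1) (by omega) (by omega) (by omega)).2 (by omega)))
        rw [show j + k - ((t - 1 : ℕ) : ℤ) - 1 = j + k - t by push_cast [h1]; ring] at h4
        exact h4
    refine ⟨hy, fun h3 => ?_⟩
    rcases r2_isM hy with h4 | h4
    · exact h4
    · exact (r2_bad1 hw t (i - k) (j + k) h1 hA
        (fun s hs1 hs2 => (ih s hs2 hs1 (by omega)).2 (by omega)) h4 (hF' t h1 h3)).elim
  refine ⟨hk, ?_, fun t h1 h2 => ?_, hA⟩
  · have h1 := (key k hk le_rfl).1
    rwa [show j + (k : ℤ) - k = j by ring] at h1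
  · have h3 := (key (k - t) (by omega) (by omega)).2 (by omega)
    rwa [show j + (k : ℤ) - ((k - t : ℕ) : ℤ) = j + t by push_cast [h2.le]; ring] at h3

end Pool.Agent.H89.BM
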