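import Pool.Agent.H89.BM.Defs

/-!
Project BM (`MP_6540cb_lc`), row BM-3: crossing intervals.
-/

open MeasureTheory Topology Filter Set
open Pool.Agent.H62.BS

namespace Pool.Agent.H89.BM

theorem cross {w : ℤ → ℤ → Sym} (hs : ∀ i j k, MD w i j k → YD w (i + k) j k)
    {i i' j : ℤ} {k k' : ℕ} (h : MD w i j k) (h' : MD w i' j k') (h1 : i < i')
    (h2 : i' < i + k) : i' + k' < i + k := by
  by_contra hcon
  obtain ⟨-, -, hY, -⟩ := hs i j k h
  obtain ⟨-, -, hM, hA⟩ := h'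
  obtain ⟨s, hsd⟩ : ∃ s : ℕ, (s : ℤ) = i + k - i' := ⟨(i + k - i').toNat, by omega⟩
  have hs0 : 0 < s := by omega
  have hsk : s < k := by omega
  have hsk' : s ≤ k' := by omega
  have hYs := hY s hs0 hsk
  have he : i + (k : ℤ) - s = i' := by omega
  rw [he] at hYs
  rcases Nat.lt_or_eq_of_le hsk' with hlt | heq
  · have := hM s hs0 hlt
    rw [hYs] at this
    cases this
  · rw [← heq, hYs] at hA
    cases hA

theorem exists_free {w : ℤ → ℤ → Sym} (hs : ∀ i j k, MD w i j k → YD w (i + k) j k)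
    {i j : ℤ} (hfin : {t : ℕ | 1 ≤ t ∧ ∃ k, t < k ∧ MD w (i - t) j k}.Finite) :
    ∃ t : ℕ, ¬ Enc w (i - t) j := by
  rcases Set.eq_empty_or_nonempty {t : ℕ | 1 ≤ t ∧ ∃ k, t < k ∧ MD w (i - t) j k} with he | hne
  · refine ⟨0, ?_⟩
    rintro ⟨t, k, ht, htk, hMD⟩
    have hmem : t ∈ {t : ℕ | 1 ≤ t ∧ ∃ k, t < k ∧ MD w (i - t) j k} := by
      refine ⟨ht, k, htk, ?_⟩
      simpa using hMD
    rw [he] at hmem
    exact hmem
  · obtain ⟨t, ht, hmax⟩ := Set.exists_max_image _ (fun t : ℕ => t) hfin hne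
    obtain ⟨ht1, k, htk, hMD⟩ := ht
    refine ⟨t, ?_⟩
    rintro ⟨s, l, hs1, hsl, hMD'⟩
    have hc := cross hs hMD' hMD (by omega) (by omega)
    have hmem : t + s ∈ {t : ℕ | 1 ≤ t ∧ ∃ k, t < k ∧ MD w (i - t) j k} := by
      refine ⟨by omega, l, by omega, ?_⟩
      have he : i - ((t + s : ℕ) : ℤ) = i - t - s := by push_cast; ring
      rw [he]
      exact hMD'
    have hle : t + s ≤ t := hmax _ hmem
    omega

end Pool.Agent.H89.BM
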