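import Pool.Agent.H89.BM.Defs

/-!
Project BM (`MP_6540cb_lc`), row 4: the parity bits along a row.
-/

set_option autoImplicit false

open MeasureTheory Topology Filter Set
open Pool.Agent.H62.BS

namespace Pool.Agent.H89.BM

/-- the bits alternate along a vertical line -/
theorem r4_bit_M {w : ℤ → ℤ → Sym} (hw : Grid w) {i j : ℤ} {k : ℕ} (h : MD w i j k) :
    (w i (j + k)).2 = xor (w i j).2 (decide (k % 2 = 1)) := by
  have key : ∀ t : ℕ, t ≤ k → (w i (j + t)).2 = xor (w i j).2 (decide (t % 2 = 1)) := by
    intro t
    induction t with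
    | zero => intro _; simp
    | succ t ih =>
      intro ht
      have h1 := ih (by omega)
      have h2 : isM (w i (j + t)).1 := by
        rcases Nat.eq_zero_or_pos t with rfl | h0
        · simpa using h.2.1
        · exact ⟨false, h.2.2.1 t h0 (by omega)⟩
      have h3 := (hw.d i (j + (t + 1 : ℕ))).d2
      have e : j + ((t + 1 : ℕ) : ℤ) - 1 = j + t := by push_cast; ring
      rw [e] at h3
      have h4 := (h3 h2).2
      rw [h1] at h4
      have e2 : decide ((t + 1) % 2 = 1) = !decide (t % 2 = 1) := by
        rcases Nat.mod_two_eq_zero_or_one t with h5 | h5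
        · have h6 : (t + 1) % 2 = 1 := by omega
          simp [h5, h6]
        · have h6 : (t + 1) % 2 = 0 := by omega
          simp [h5, h6]
      rw [e2]
      revert h4
      cases (w i (j + ((t + 1 : ℕ) : ℤ))).2 <;> cases (w i j).2 <;>
        cases decide (t % 2 = 1) <;> simp
  exact key k le_rfl

/-- the bits are constant along a diagonal line -/
theorem r4_bit_Y {w : ℤ → ℤ → Sym} (hw : Grid w) {i j : ℤ} {k : ℕ} (h : YD w i j k) :
    (w (i - k) (j + k)).2 = (w i j).2 := by
  have key : ∀ t : ℕ, t ≤ k → (w (i - t) (j + t)).2 = (w i j).2 := by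
    intro t
    induction t with
    | zero => intro _; simp
    | succ t ih =>
      intro ht
      have h1 := ih (by omega)
      have h2 : isY (w (i - t) (j + t)).1 := by
        rcases Nat.eq_zero_or_pos t with rfl | h0
        · simpa using h.2.1
        · exact ⟨false, h.2.2.1 t h0 (by omega)⟩
      have h3 := (hw.dr (i - (t + 1 : ℕ)) (j + (t + 1 : ℕ))).e2
      have e : j + ((t + 1 : ℕ) : ℤ) - 1 = j + t := by push_cast; ring
      have e' : i - ((t + 1 : ℕ) : ℤ) + 1 = i - t := by push_cast; ring
      rw [e, e'] at h3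
      rw [(h3 h2).2, h1]
  exact key k le_rfl

theorem r4_unique {w : ℤ → ℤ → Sym} {i j : ℤ} {k l : ℕ} (h : MD w i j k) (h' : MD w i j l) :
    ¬ k < l := by
  intro hlt
  have h1 := h'.2.2.1 k h.1 hlt
  rw [h.2.2.2] at h1
  exact Lab.noConfusion h1

theorem r4_xor (b : Bool) {n m k : ℕ} (h : m + k = n) :
    xor (xor b (decide (k % 2 = 1))) (decide (m % 2 = 1)) = xor b (decide (n % 2 = 1)) := by
  subst h
  rcases Nat.mod_two_eq_zero_or_one k with h1 | h1 <;>
    rcases Nat.mod_two_eq_zero_or_one m with h2 | h2
  · have h3 : (m + k) % 2 = 0 := by omega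
    simp [h1, h2, h3]
  · have h3 : (m + k) % 2 = 1 := by omega
    simp [h1, h2, h3]
  · have h3 : (m + k) % 2 = 1 := by omega
    simp [h1, h2, h3]
  · have h3 : (m + k) % 2 = 0 := by omega
    simp [h1, h2, h3]

theorem coherent {w : ℤ → ℤ → Sym} (hw : Grid w)
    (hs : ∀ i j k, MD w i j k → YD w (i + k) j k) (hs' : ∀ i j k, YD w i j k → MD w (i - k) j k)
    (hc : ∀ (i i' j : ℤ) (k k' : ℕ), MD w i j k → MD w i' j k' → i < i' → i' < i + k →
      i' + k' < i + k) {j : ℤ}
    (hM : ∀ i, isM (w i j).1 → ∃ k, MD w i j k) (hY : ∀ i, isY (w i j).1 → ∃ k, YD w i j k) :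
    ∀ (n : ℕ) (i : ℤ), ¬ Enc w i j → ¬ Enc w (i + n) j →
      (w (i + n) j).2 = xor (w i j).2 (decide (n % 2 = 1)) := by
  intro n
  induction n using Nat.strong_induction_on with
  | _ n ih =>
    intro i h1 h2
    rcases Nat.eq_zero_or_pos n with rfl | hn
    · simp
    by_cases hi : isM (w i j).1
    · obtain ⟨k, hk⟩ := hM i hi
      have hk1 := hk.1
      have hkn : k ≤ n := by
        by_contra hcon
        refine h2 ⟨n, k, hn, by omega, ?_⟩
        rw [add_sub_cancel_right]
        exact hk
      have h3 : ¬ Enc w (i + k) j := by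
        rintro ⟨t, l, ht1, htl, hm⟩
        rcases lt_trichotomy (i + k - t) i with h | h | h
        · refine h1 ⟨t - k, l, by omega, by omega, ?_⟩
          have e : i - ((t - k : ℕ) : ℤ) = i + k - t := by
            rw [Nat.cast_sub (by omega)]; ring
          rw [e]
          exact hm
        · rw [h] at hm
          exact r4_unique hk hm (by omega)
        · have := hc i (i + k - t) j k l hk hm h (by omega)
          omega
      have h4 := r4_bit_M hw hk
      have h5 := r4_bit_Y hw (hs i j k hk)
      rw [add_sub_cancel_right] at h5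
      have e : i + (k : ℤ) + ((n - k : ℕ) : ℤ) = i + n := by
        rw [Nat.cast_sub hkn]; ring
      have h6 := ih (n - k) (by omega) (i + k) h3 (by rw [e]; exact h2)
      rw [e] at h6
      rw [h6, ← h5, h4]
      exact r4_xor _ (by omega)
    · have h3 : ¬ isY (w (i + 1) j).1 := by
        intro hy
        obtain ⟨l, hl⟩ := hY (i + 1) hy
        have h4 := hs' _ _ _ hl
        have hl1 := hl.1
        rcases Nat.lt_or_ge 1 l with h | h
        · refine h1 ⟨l - 1, l, by omega, by omega, ?_⟩
          have e : i - ((l - 1 : ℕ) : ℤ) = i + 1 - l := by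
            rw [Nat.cast_sub hl1]; push_cast; ring
          rw [e]
          exact h4
        · have hl2 : l = 1 := by omega
          subst hl2
          rw [Nat.cast_one, add_sub_cancel_right] at h4
          exact hi h4.2.1
      have h4 := (hw.r i j).r6 ⟨fun h => absurd h hi, fun h => absurd h h3⟩
      have h5 : ¬ Enc w (i + 1) j := by
        rintro ⟨t, l, ht1, htl, hm⟩
        rcases Nat.lt_or_ge 1 t with h | h
        · refine h1 ⟨t - 1, l, by omega, by omega, ?_⟩
          have e : i - ((t - 1 : ℕ) : ℤ) = i + 1 - t := by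
            rw [Nat.cast_sub ht1]; push_cast; ring
          rw [e]
          exact hm
        · have ht2 : t = 1 := by omega
          subst ht2
          rw [Nat.cast_one, add_sub_cancel_right] at hm
          exact hi hm.2.1
      have e : i + 1 + ((n - 1 : ℕ) : ℤ) = i + n := by
        rw [Nat.cast_sub hn]; push_cast; ring
      have h6 := ih (n - 1) (by omega) (i + 1) h5 (by rw [e]; exact h2)
      rw [e] at h6
      have h7 : (w (i + 1) j).2 = xor (w i j).2 (decide (1 % 2 = 1)) := by
        revert h4
        cases (w (i + 1) j).2 <;> cases (w i j).2 <;> simp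
      rw [h6, h7]
      exact r4_xor _ (by omega)

end Pool.Agent.H89.BM
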