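import Pool.Agent.H89.BM.Proc
import Pool.Agent.H62.BS.MixCoin

/-!
Project BM (`MP_6540cb_lc`), row BM-5: almost surely every vertical line and every diagonal line
has an apex.
-/

open MeasureTheory Topology Filter Set
open Pool.Agent.H62.BS

namespace Pool.Agent.H89.BM

theorem r5_pt_ne {d : ℕ} (hd : 2 ≤ d) {a b : ℤ} (h : a ≠ 0 ∨ b ≠ 0) : pt hd a b ≠ 0 := by
  intro he
  have h0 : a = 0 := by
    have := congrFun he ⟨0, by omega⟩
    simpa [pt] using this
  have h1 : b = 0 := by
    have := congrFun he ⟨1, by omega⟩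
    simpa [pt] using this
  rcases h with h | h
  · exact h h0
  · exact h h1

theorem r5_pt_smul {d : ℕ} (hd : 2 ≤ d) (q : ℕ) (a b : ℤ) :
    q • pt hd a b = pt hd (q * a) (q * b) := by
  funext i
  simp only [pt, Pi.smul_apply, Pi.add_apply, Pi.single_apply, nsmul_eq_mul]
  split_ifs <;> simp [mul_add]

theorem r5_pt_zero {d : ℕ} (hd : 2 ≤ d) : pt hd 0 0 = 0 := by
  simp [pt]

/-- the half line of cells with property `P` -/
def r5_E {d : ℕ} (W : FreePart d → ℤ → ℤ → Sym) (P : Sym → Prop) (a b : ℤ) : Set (FreePart d) :=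
  {x | ∀ s : ℕ, P (W x (s * a) (s * b))}

theorem r5_meas {d : ℕ} {hd : 2 ≤ d} {W : FreePart d → ℤ → ℤ → Sym} (hW : Proc hd W)
    (P : Sym → Prop) (i j : ℤ) : NullMeasurableSet {x | P (W x i j)} (coin d) := by
  have h1 : NullMeasurableSet {x | P (W x 0 0)} (coin d) := by
    have h2 : {x | P (W x 0 0)} = ⋃ s : {s : Sym // P s}, {x | W x 0 0 = s} := by
      ext x
      simp
    rw [h2]
    exact NullMeasurableSet.iUnion fun s => hW.meas s
  have h3 : {x | P (W x i j)} = act (pt hd i j) ⁻¹' {x | P (W x 0 0)} := by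
    ext x
    simp only [Set.mem_ofPred_eq, mem_preimage, hW.equi, zero_add]
  rw [h3]
  exact h1.preimage (measurePreserving_act (pt hd i j)).quasiMeasurePreserving

theorem r5_null {d : ℕ} {hd : 2 ≤ d} {W : FreePart d → ℤ → ℤ → Sym} (hW : Proc hd W)
    (P : Sym → Prop) {a b : ℤ} (hab : a ≠ 0 ∨ b ≠ 0)
    (hP : ∀ x, P (W x 0 0) → ¬ P (W x 1 0)) : ∀ᵐ x ∂(coin d), x ∉ r5_E W P a b := by
  by_contra hcon
  have hfr : ∃ᶠ x in ae (coin d), x ∈ r5_E W P a b := by
    rw [Filter.Frequently]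
    exact hcon
  have hEm : NullMeasurableSet (r5_E W P a b) (coin d) := by
    have h2 : r5_E W P a b = ⋂ s : ℕ, {x | P (W x (s * a) (s * b))} := by
      ext x
      simp [r5_E]
    rw [h2]
    exact NullMeasurableSet.iInter fun s => r5_meas hW P _ _
  by_cases hall : ∀ᵐ x ∂(coin d), x ∈ r5_E W P a b
  · obtain ⟨x, hx⟩ := (ae_coin_all_act hall).exists
    have h0 : P (W x 0 0) := by
      have := hx 0 0
      rw [act_zero] at this
      simpa using this
    have h1 : P (W x 1 0) := by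
      have := hx (pt hd 1 0) 0
      rw [hW.equi] at this
      simpa using this
    exact hP x h0 h1
  · have hfr' : ∃ᶠ x in ae (coin d), x ∉ r5_E W P a b := by
      rw [Filter.Frequently]
      simpa using hall
    classical
    obtain ⟨q0, hq0⟩ := mix_coin d (V := Prop) (fun x => x ∈ r5_E W P a b) (by
      intro v
      by_cases hv : v
      · have h1 : {x | (x ∈ r5_E W P a b) = v} = r5_E W P a b := by
          ext x
          simp [hv]
        rw [h1]
        exact hEm
      · have h1 : {x | (x ∈ r5_E W P a b) = v} = (r5_E W P a b)ᶜ := by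
          ext x
          simp [hv]
        rw [h1]
        exact hEm.compl) {0, pt hd a b} (fun g => g = 0) (by
      intro g hg
      by_cases hg0 : g = 0
      · refine hfr.mono fun x hx => ?_
        simp [hx, hg0]
      · refine hfr'.mono fun x hx => ?_
        simp [hx, hg0])
    obtain ⟨x, hx⟩ := hq0 q0 le_rfl
    have h0 := hx 0 (by simp)
    have h1 := hx (pt hd a b) (by simp)
    simp only [smul_zero, act_zero, eq_iff_iff, iff_true] at h0
    simp only [eq_iff_iff, iff_false, r5_pt_ne hd hab] at h1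
    apply h1
    intro s
    rw [r5_pt_smul, hW.equi]
    have h2 := h0 (s + q0)
    have e1 : (s : ℤ) * a + q0 * a = ((s + q0 : ℕ) : ℤ) * a := by push_cast; ring
    have e2 : (s : ℤ) * b + q0 * b = ((s + q0 : ℕ) : ℤ) * b := by push_cast; ring
    rw [e1, e2]
    exact h2

theorem r5_M {w : ℤ → ℤ → Sym} (hw : Grid w) (h0 : isM (w 0 0).1)
    (hE : ¬ ∀ s : ℕ, isM (w (s * 0) (s * 1)).1) : ∃ k, MD w 0 0 k := by
  classical
  have hex : ∃ s : ℕ, ¬ isM (w 0 s).1 := by
    by_contra hcon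
    push Not at hcon
    exact hE fun s => by simpa using hcon s
  have hk := Nat.find_spec hex
  have hmin : ∀ t, t < Nat.find hex → isM (w 0 t).1 := fun t ht => by
    have := Nat.find_min hex ht
    simpa using this
  set k := Nat.find hex with hkd
  have hk1 : 1 ≤ k := by
    by_contra hcon
    have : k = 0 := by omega
    rw [this] at hk
    exact hk (by simpa using h0)
  refine ⟨k, hk1, h0, fun t ht htk => ?_, ?_⟩
  · have h1 := hw.d 0 t
    have h2 : isM (w 0 ((t : ℤ) - 1)).1 := by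
      have := hmin (t - 1) (by omega)
      have e : ((t - 1 : ℕ) : ℤ) = (t : ℤ) - 1 := by omega
      rwa [e] at this
    rw [zero_add]
    rcases (h1.d2 h2).1 with h3 | h3
    · exfalso
      obtain ⟨b, hb⟩ := hmin t htk
      rw [h3] at hb
      cases hb
    · exact h3
  · have h1 := hw.d 0 k
    have h2 : isM (w 0 ((k : ℤ) - 1)).1 := by
      have := hmin (k - 1) (by omega)
      have e : ((k - 1 : ℕ) : ℤ) = (k : ℤ) - 1 := by omega
      rwa [e] at this
    rw [zero_add]
    rcases (h1.d2 h2).1 with h3 | h3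
    · exact h3
    · exact absurd ⟨_, h3⟩ hk

theorem r5_Y {w : ℤ → ℤ → Sym} (hw : Grid w) (h0 : isY (w 0 0).1)
    (hE : ¬ ∀ s : ℕ, isY (w (s * (-1)) (s * 1)).1) : ∃ k, YD w 0 0 k := by
  classical
  have hex : ∃ s : ℕ, ¬ isY (w (-(s : ℤ)) s).1 := by
    by_contra hcon
    push Not at hcon
    exact hE fun s => by simpa using hcon s
  have hk := Nat.find_spec hex
  have hmin : ∀ t : ℕ, t < Nat.find hex → isY (w (-(t : ℤ)) t).1 := fun t ht => by
    have := Nat.find_min hex ht
    simpa using this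
  set k := Nat.find hex with hkd
  have hk1 : 1 ≤ k := by
    by_contra hcon
    have : k = 0 := by omega
    rw [this] at hk
    exact hk (by simpa using h0)
  refine ⟨k, hk1, h0, fun t ht htk => ?_, ?_⟩
  · have h1 := hw.dr (-(t : ℤ)) t
    have h2 : isY (w (-(t : ℤ) + 1) ((t : ℤ) - 1)).1 := by
      have := hmin (t - 1) (by omega)
      have e : ((t - 1 : ℕ) : ℤ) = (t : ℤ) - 1 := by omega
      have e' : -((t : ℤ) - 1) = -(t : ℤ) + 1 := by ring
      rwa [e, e'] at this
    rw [zero_add, zero_sub]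
    rcases (h1.e2 h2).1 with h3 | h3
    · exfalso
      obtain ⟨b, hb⟩ := hmin t htk
      rw [h3] at hb
      cases hb
    · exact h3
  · have h1 := hw.dr (-(k : ℤ)) k
    have h2 : isY (w (-(k : ℤ) + 1) ((k : ℤ) - 1)).1 := by
      have := hmin (k - 1) (by omega)
      have e : ((k - 1 : ℕ) : ℤ) = (k : ℤ) - 1 := by omega
      have e' : -((k : ℤ) - 1) = -(k : ℤ) + 1 := by ring
      rwa [e, e'] at this
    rw [zero_add, zero_sub]
    rcases (h1.e2 h2).1 with h3 | h3
    · exact h3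
    · exact absurd ⟨_, h3⟩ hk

theorem r5_MD_act {d : ℕ} {hd : 2 ≤ d} {W : FreePart d → ℤ → ℤ → Sym} (hW : Proc hd W)
    (x : FreePart d) (i j : ℤ) (k : ℕ) (h : MD (W (act (pt hd i j) x)) 0 0 k) :
    MD (W x) i j k := by
  obtain ⟨h1, h2, h3, h4⟩ := h
  refine ⟨h1, ?_, fun t ht htk => ?_, ?_⟩
  · rw [hW.equi] at h2
    simpa using h2
  · have := h3 t ht htk
    rw [hW.equi] at this
    simpa [add_comm] using this
  · rw [hW.equi] at h4
    simpa [add_comm] using h4

theorem r5_YD_act {d : ℕ} {hd : 2 ≤ d} {W : FreePart d → ℤ → ℤ → Sym} (hW : Proc hd W)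
    (x : FreePart d) (i j : ℤ) (k : ℕ) (h : YD (W (act (pt hd i j) x)) 0 0 k) :
    YD (W x) i j k := by
  obtain ⟨h1, h2, h3, h4⟩ := h
  refine ⟨h1, ?_, fun t ht htk => ?_, ?_⟩
  · rw [hW.equi] at h2
    simpa using h2
  · have := h3 t ht htk
    rw [hW.equi] at this
    have e1 : (0 : ℤ) - t + i = i - t := by ring
    have e2 : (0 : ℤ) + t + j = j + t := by ring
    rwa [e1, e2] at this
  · rw [hW.equi] at h4
    have e1 : (0 : ℤ) - k + i = i - k := by ring
    have e2 : (0 : ℤ) + k + j = j + k := by ring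
    rwa [e1, e2] at h4

theorem ae_lines {d : ℕ} {hd : 2 ≤ d} {W : FreePart d → ℤ → ℤ → Sym} (hW : Proc hd W) :
    ∀ᵐ x ∂(coin d), ∀ i j, (isM (W x i j).1 → ∃ k, MD (W x) i j k) ∧
      (isY (W x i j).1 → ∃ k, YD (W x) i j k) := by
  have hM : ∀ᵐ x ∂(coin d), x ∉ r5_E W (fun s => isM s.1) 0 1 := by
    refine r5_null hW _ (Or.inr one_ne_zero) fun x h0 h1 => ?_
    obtain ⟨b, hb⟩ := h1
    obtain ⟨c, hc⟩ := h0
    have h2 := ((hW.grid x).r 0 0).r1 b (by simpa using hb)
    rcases h2 with h2 | h2 <;> rw [hc] at h2 <;> cases h2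
  have hY : ∀ᵐ x ∂(coin d), x ∉ r5_E W (fun s => isY s.1) (-1) 1 := by
    refine r5_null hW _ (Or.inr one_ne_zero) fun x h0 h1 => ?_
    obtain ⟨b, hb⟩ := h1
    obtain ⟨c, hc⟩ := h0
    cases b with
    | true =>
      have h2 := ((hW.grid x).r 0 0).r4 (Or.inr (by simpa using hb))
      rcases h2 with h2 | h2 <;> rw [hc] at h2 <;> cases h2
    | false =>
      have h2 := ((hW.grid x).r 0 0).r5 (by simpa using hb)
      rcases h2 with h2 | h2 <;> rw [hc] at h2 <;> cases h2
  filter_upwards [ae_coin_all_act hM, ae_coin_all_act hY] with x hx1 hx2 i j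
  refine ⟨fun h => ?_, fun h => ?_⟩
  · obtain ⟨k, hk⟩ := r5_M (hW.grid (act (pt hd i j) x)) (by
      rw [hW.equi]
      simpa using h) (hx1 (pt hd i j))
    exact ⟨k, r5_MD_act hW x i j k hk⟩
  · obtain ⟨k, hk⟩ := r5_Y (hW.grid (act (pt hd i j) x)) (by
      rw [hW.equi]
      simpa using h) (hx2 (pt hd i j))
    exact ⟨k, r5_YD_act hW x i j k hk⟩

end Pool.Agent.H89.BM
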