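import Pool.Agent.H89.BM.Proc
import Pool.Agent.H62.BS.MixCoin

/-!
Project BM (`MP_6540cb_lc`), row BM-6: almost surely only finitely many intervals of a row contain
the origin (Borel-Cantelli).
-/

open MeasureTheory Topology Filter Set
open Pool.Agent.H62.BS

namespace Pool.Agent.H89.BM

theorem r6_cell {d : ℕ} {hd : 2 ≤ d} {W : FreePart d → ℤ → ℤ → Sym} (hW : Proc hd W) (i j : ℤ)
    (s : Sym) : NullMeasurableSet {x | W x i j = s} (coin d) := by
  have h := (hW.meas s).preimage (measurePreserving_act (pt hd i j)).quasiMeasurePreserving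
  convert h using 1
  ext x
  simp only [mem_ofPred_eq, mem_preimage]
  rw [hW.equi, zero_add, zero_add]

theorem r6_lab {d : ℕ} {hd : 2 ≤ d} {W : FreePart d → ℤ → ℤ → Sym} (hW : Proc hd W) (i j : ℤ)
    (p : Lab → Prop) : NullMeasurableSet {x | p (W x i j).1} (coin d) := by
  have h : {x | p (W x i j).1} = ⋃ s ∈ {s : Sym | p s.1}, {x | W x i j = s} := by
    ext x
    simp
  rw [h]
  exact NullMeasurableSet.biUnion (Set.to_countable _) fun s _ => r6_cell hW i j s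

theorem r6_MD {d : ℕ} {hd : 2 ≤ d} {W : FreePart d → ℤ → ℤ → Sym} (hW : Proc hd W) (i j : ℤ)
    (k : ℕ) : NullMeasurableSet {x | MD (W x) i j k} (coin d) := by
  by_cases hk : 1 ≤ k
  · have h : {x | MD (W x) i j k} = {x | isM (W x i j).1} ∩
        (⋂ t ∈ {t : ℕ | 0 < t ∧ t < k}, {x | (W x i (j + t)).1 = Lab.M false}) ∩
        {x | (W x i (j + k)).1 = Lab.A} := by
      ext x
      simp only [MD, mem_ofPred_eq, mem_inter_iff, mem_iInter]
      constructor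
      · rintro ⟨_, h1, h2, h3⟩
        exact ⟨⟨h1, fun t ht => h2 t ht.1 ht.2⟩, h3⟩
      · rintro ⟨⟨h1, h2⟩, h3⟩
        exact ⟨hk, h1, fun t ht1 ht2 => h2 t ⟨ht1, ht2⟩, h3⟩
    rw [h]
    refine ((r6_lab hW i j isM).inter ?_).inter (r6_lab hW i (j + k) (fun l => l = Lab.A))
    exact NullMeasurableSet.biInter (Set.to_countable _) fun t _ =>
      r6_lab hW i (j + t) (fun l => l = Lab.M false)
  · have h : {x | MD (W x) i j k} = ∅ := by
      ext x
      simp only [mem_ofPred_eq, mem_empty_iff_false, iff_false]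
      exact fun hx => hk hx.1
    rw [h]
    exact nullMeasurableSet_empty

theorem r6_P {d : ℕ} {hd : 2 ≤ d} {W : FreePart d → ℤ → ℤ → Sym} (hW : Proc hd W) (i j : ℤ)
    (t : ℕ) : NullMeasurableSet {x | ∃ k, t < k ∧ MD (W x) i j k} (coin d) := by
  have h : {x | ∃ k, t < k ∧ MD (W x) i j k} =
      ⋃ k ∈ {k : ℕ | t < k}, {x | MD (W x) i j k} := by
    ext x
    simp
  rw [h]
  exact NullMeasurableSet.biUnion (Set.to_countable _) fun k _ => r6_MD hW i j k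

/-- the measure of the set of the points with a long interval does not depend on the cell -/
theorem r6_eq {d : ℕ} {hd : 2 ≤ d} {W : FreePart d → ℤ → ℤ → Sym} (hW : Proc hd W) (i j : ℤ)
    (t : ℕ) : coin d {x | ∃ k, t < k ∧ MD (W x) i j k} =
      coin d {x | ∃ k, t < k ∧ MD (W x) 0 0 k} := by
  have h := (measurePreserving_act (d := d) (pt hd i j)).measure_preimage (r6_P hW 0 0 t)
  rw [← h]
  congr 1
  ext x
  simp only [mem_ofPred_eq, mem_preimage, MD, hW.equi, zero_add]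
  have e : ∀ t : ℤ, j + t = t + j := fun t => add_comm _ _
  simp only [e]

theorem r6_disj {d : ℕ} {hd : 2 ≤ d} {W : FreePart d → ℤ → ℤ → Sym}
    (hl : ∀ x i j k, MD (W x) i j k → ∀ t : ℕ, 1 ≤ t → t < k → ∃ b, (W x (i - t) j).1 = Lab.E b)
    {s t : ℕ} (hst : s < t) (hs : 1 ≤ s) :
    Disjoint {x | ∃ k, s < k ∧ MD (W x) s 0 k} {x | ∃ k, t < k ∧ MD (W x) t 0 k} := by
  rw [Set.disjoint_left]
  rintro x ⟨k, _, hk⟩ ⟨k', hk1, hk'⟩
  obtain ⟨b, hb⟩ := hl x t 0 k' hk' (t - s) (by omega) (by omega)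
  have e : (t : ℤ) - ((t - s : ℕ) : ℤ) = s := by
    push_cast [Nat.cast_sub hst.le]
    ring
  rw [e] at hb
  obtain ⟨h, hh⟩ := hk.2.1
  rw [hb] at hh
  exact Lab.noConfusion hh

/-! ## BM-6: almost surely only finitely many intervals of a row contain the origin -/

theorem ae_fin {d : ℕ} {hd : 2 ≤ d} {W : FreePart d → ℤ → ℤ → Sym} (hW : Proc hd W)
    (hl : ∀ x i j k, MD (W x) i j k → ∀ t : ℕ, 1 ≤ t → t < k → ∃ b, (W x (i - t) j).1 = Lab.E b) :
    ∀ᵐ x ∂(coin d), {t : ℕ | 1 ≤ t ∧ ∃ k, t < k ∧ MD (W x) (0 - t) 0 k}.Finite := by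
  -- the sets with the index shifted by one
  have hsum : ∑' t : ℕ, coin d {x | ∃ k, t + 1 < k ∧ MD (W x) ((t + 1 : ℕ) : ℤ) 0 k} ≤ 1 := by
    have h1 := tsum_meas_le_meas_iUnion_of_disjoint₀ (coin d)
      (As := fun t : ℕ => {x | ∃ k, t + 1 < k ∧ MD (W x) ((t + 1 : ℕ) : ℤ) 0 k})
      (fun t => r6_P hW ((t + 1 : ℕ) : ℤ) 0 (t + 1)) ?_
    · exact h1.trans prob_le_one
    · intro s t hst
      apply Disjoint.aedisjoint
      rcases lt_or_gt_of_ne hst with h | h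
      · exact r6_disj (hd := hd) hl (by omega : s + 1 < t + 1) (by omega)
      · exact (r6_disj (hd := hd) hl (by omega : t + 1 < s + 1) (by omega)).symm
  have hne : ∑' t : ℕ, coin d {x | ∃ k, t + 1 < k ∧ MD (W x) (0 - ((t + 1 : ℕ) : ℤ)) 0 k} ≠ ⊤ := by
    have h1 : ∑' t : ℕ, coin d {x | ∃ k, t + 1 < k ∧ MD (W x) (0 - ((t + 1 : ℕ) : ℤ)) 0 k} =
        ∑' t : ℕ, coin d {x | ∃ k, t + 1 < k ∧ MD (W x) ((t + 1 : ℕ) : ℤ) 0 k} := by
      apply tsum_congr
      intro t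
      rw [r6_eq hW (0 - ((t + 1 : ℕ) : ℤ)) 0 (t + 1), r6_eq hW ((t + 1 : ℕ) : ℤ) 0 (t + 1)]
    rw [h1]
    exact ne_top_of_le_ne_top ENNReal.one_ne_top hsum
  filter_upwards [ae_finite_setOfPred_mem hne] with x hx
  have hsub : {t : ℕ | 1 ≤ t ∧ ∃ k, t < k ∧ MD (W x) (0 - t) 0 k} ⊆
      (fun t : ℕ => t + 1) '' {t : ℕ | x ∈ {x | ∃ k, t + 1 < k ∧
        MD (W x) (0 - ((t + 1 : ℕ) : ℤ)) 0 k}} := by
    rintro t ⟨ht1, k, hk1, hk2⟩
    refine ⟨t - 1, ⟨k, by omega, ?_⟩, by simp only; omega⟩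
    rwa [Nat.sub_add_cancel ht1]
  exact (hx.image _).subset hsub

end Pool.Agent.H89.BM
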