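import Pool.Agent.H89.BM.Proc
import Pool.Agent.H62.BS.MixCoin

/-!
Project BM (`MP_6540cb_lc`), row BM-7: the contradiction.
-/

open MeasureTheory Topology Filter Set
open Pool.Agent.H62.BS

namespace Pool.Agent.H89.BM

theorem r7_cell {d : ℕ} {hd : 2 ≤ d} {W : FreePart d → ℤ → ℤ → Sym} (hW : Proc hd W)
    (i j : ℤ) (s : Sym) : NullMeasurableSet {x | W x i j = s} (coin d) := by
  have h := (hW.meas s).preimage (measurePreserving_act (pt hd i j)).quasiMeasurePreserving
  have e : act (pt hd i j) ⁻¹' {x | W x 0 0 = s} = {x | W x i j = s} := by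
    ext x
    simp only [mem_preimage, Set.mem_ofPred_eq]
    rw [hW.equi, zero_add, zero_add]
  rwa [e] at h

theorem r7_pred {d : ℕ} {hd : 2 ≤ d} {W : FreePart d → ℤ → ℤ → Sym} (hW : Proc hd W)
    (i j : ℤ) (P : Sym → Prop) : NullMeasurableSet {x | P (W x i j)} (coin d) := by
  have e : {x | P (W x i j)} = ⋃ s ∈ {s | P s}, {x | W x i j = s} := by
    ext x
    simp
  rw [e]
  exact NullMeasurableSet.biUnion (Set.to_countable _) fun s _ => r7_cell hW i j s

theorem r7_all {d : ℕ} {ι : Type} [Countable ι] {p : ι → FreePart d → Prop}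
    (h : ∀ i, NullMeasurableSet {x | p i x} (coin d)) :
    NullMeasurableSet {x | ∀ i, p i x} (coin d) := by
  rw [Set.ofPred_forall]
  exact NullMeasurableSet.iInter h

theorem r7_ex {d : ℕ} {ι : Type} [Countable ι] {p : ι → FreePart d → Prop}
    (h : ∀ i, NullMeasurableSet {x | p i x} (coin d)) :
    NullMeasurableSet {x | ∃ i, p i x} (coin d) := by
  rw [Set.ofPred_exists]
  exact NullMeasurableSet.iUnion h

theorem r7_imp {d : ℕ} (q : Prop) {p : FreePart d → Prop}
    (h : NullMeasurableSet {x | p x} (coin d)) :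
    NullMeasurableSet {x | q → p x} (coin d) := by
  by_cases hq : q
  · simpa [hq] using h
  · simp [hq]

theorem r7_const {d : ℕ} (p : Prop) : NullMeasurableSet {_x : FreePart d | p} (coin d) := by
  by_cases hp : p
  · simp [hp]
  · simp [hp]

theorem r7_MD {d : ℕ} {hd : 2 ≤ d} {W : FreePart d → ℤ → ℤ → Sym} (hW : Proc hd W)
    (i j : ℤ) (k : ℕ) : NullMeasurableSet {x | MD (W x) i j k} (coin d) := by
  have h2 : NullMeasurableSet {x | ∀ t : ℕ, 0 < t → t < k → (W x i (j + t)).1 = Lab.M false}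
      (coin d) :=
    r7_all fun t => r7_imp _ (r7_imp _ (r7_pred hW i (j + t) fun s => s.1 = Lab.M false))
  exact ((r7_const (1 ≤ k)).inter ((r7_pred hW i j fun s => isM s.1).inter
    (h2.inter (r7_pred hW i (j + k) fun s => s.1 = Lab.A))))

theorem r7_YD {d : ℕ} {hd : 2 ≤ d} {W : FreePart d → ℤ → ℤ → Sym} (hW : Proc hd W)
    (i j : ℤ) (k : ℕ) : NullMeasurableSet {x | YD (W x) i j k} (coin d) := by
  have h2 : NullMeasurableSet
      {x | ∀ t : ℕ, 0 < t → t < k → (W x (i - t) (j + t)).1 = Lab.Y false} (coin d) :=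
    r7_all fun t => r7_imp _ (r7_imp _ (r7_pred hW (i - t) (j + t) fun s => s.1 = Lab.Y false))
  exact ((r7_const (1 ≤ k)).inter ((r7_pred hW i j fun s => isY s.1).inter
    (h2.inter (r7_pred hW (i - k) (j + k) fun s => s.1 = Lab.A))))

theorem r7_Enc {d : ℕ} {hd : 2 ≤ d} {W : FreePart d → ℤ → ℤ → Sym} (hW : Proc hd W)
    (i j : ℤ) : NullMeasurableSet {x | Enc (W x) i j} (coin d) :=
  r7_ex fun t => r7_ex fun k => (r7_const (1 ≤ t)).inter
    ((r7_const (t < k)).inter (r7_MD hW (i - t) j k))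

theorem r7_apex {d : ℕ} {hd : 2 ≤ d} {W : FreePart d → ℤ → ℤ → Sym} (hW : Proc hd W) :
    NullMeasurableSet {x | ∀ i j, (isM (W x i j).1 → ∃ k, MD (W x) i j k) ∧
      (isY (W x i j).1 → ∃ k, YD (W x) i j k)} (coin d) := by
  refine r7_all fun i => r7_all fun j => ?_
  have h1 : NullMeasurableSet {x | isM (W x i j).1 → ∃ k, MD (W x) i j k} (coin d) := by
    have e : {x | isM (W x i j).1 → ∃ k, MD (W x) i j k} =
        {x | isM (W x i j).1}ᶜ ∪ {x | ∃ k, MD (W x) i j k} := by
      ext x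
      simp only [Set.mem_ofPred_eq, mem_union, mem_compl_iff]
      exact imp_iff_not_or
    rw [e]
    exact (r7_pred hW i j fun s => isM s.1).compl.union (r7_ex fun k => r7_MD hW i j k)
  have h2 : NullMeasurableSet {x | isY (W x i j).1 → ∃ k, YD (W x) i j k} (coin d) := by
    have e : {x | isY (W x i j).1 → ∃ k, YD (W x) i j k} =
        {x | isY (W x i j).1}ᶜ ∪ {x | ∃ k, YD (W x) i j k} := by
      ext x
      simp only [Set.mem_ofPred_eq, mem_union, mem_compl_iff]
      exact imp_iff_not_or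
    rw [e]
    exact (r7_pred hW i j fun s => isY s.1).compl.union (r7_ex fun k => r7_YD hW i j k)
  exact h1.inter h2

/-- shifting the filling along a row does not change whether a cell is enclosed -/
theorem r7_Enc_shift {w w' : ℤ → ℤ → Sym} {a b : ℤ} (h : ∀ i j, w' i j = w (i + a) (j + b))
    (i j : ℤ) : Enc w' i j ↔ Enc w (i + a) (j + b) := by
  have e : w' = fun i j => w (i + a) (j + b) := by
    funext i j
    exact h i j
  subst e
  unfold Enc MD
  refine exists_congr fun t => exists_congr fun k => ?_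
  have e1 : i - (t : ℤ) + a = i + a - t := by ring
  have e2 : ∀ t : ℤ, j + t + b = j + b + t := fun t => by ring
  simp only [e1, e2]

theorem no_proc {d : ℕ} {hd : 2 ≤ d} {W : FreePart d → ℤ → ℤ → Sym} (hW : Proc hd W)
    (h1 : ∀ᵐ x ∂(coin d), ∀ i j, (isM (W x i j).1 → ∃ k, MD (W x) i j k) ∧
      (isY (W x i j).1 → ∃ k, YD (W x) i j k))
    (h2 : ∀ᵐ x ∂(coin d), {t : ℕ | 1 ≤ t ∧ ∃ k, t < k ∧ MD (W x) (0 - t) 0 k}.Finite)
    (h3 : ∀ x (i j : ℤ), {t : ℕ | 1 ≤ t ∧ ∃ k, t < k ∧ MD (W x) (i - t) j k}.Finite →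
      ∃ t : ℕ, ¬ Enc (W x) (i - t) j)
    (h4 : ∀ x (j : ℤ), (∀ i, isM (W x i j).1 → ∃ k, MD (W x) i j k) →
      (∀ i, isY (W x i j).1 → ∃ k, YD (W x) i j k) →
      ∀ (n : ℕ) (i : ℤ), ¬ Enc (W x) i j → ¬ Enc (W x) (i + n) j →
        (W x (i + n) j).2 = xor (W x i j).2 (decide (n % 2 = 1))) : False := by
  classical
  set H : FreePart d → Prop := fun x => ∀ i j, (isM (W x i j).1 → ∃ k, MD (W x) i j k) ∧
      (isY (W x i j).1 → ∃ k, YD (W x) i j k) with hH
  -- the origin is free with positive probability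
  have hN : ∃ᶠ x in ae (coin d), ¬ Enc (W x) 0 0 := by
    intro hcon
    have hall := ae_coin_all_act hcon
    obtain ⟨x, hx, hf⟩ := (hall.and h2).exists
    obtain ⟨t, ht⟩ := h3 x 0 0 hf
    have := hx (pt hd (0 - t) 0)
    rw [not_not, r7_Enc_shift (hW.equi x (0 - t) 0), zero_add, zero_add] at this
    exact ht this
  -- with some bit
  have hbit : ∃ a : Bool, ∃ᶠ x in ae (coin d), (¬ Enc (W x) 0 0 ∧ (W x 0 0).2 = a ∧ H x) := by
    by_contra hcon
    push Not at hcon
    have ht := hcon true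
    have hf := hcon false
    refine hN ?_
    filter_upwards [ht, hf, h1] with x hxt hxf hxH
    intro hne
    cases hb : (W x 0 0).2 with
    | true => exact hxt hne hb hxH
    | false => exact hxf hne hb hxH
  obtain ⟨a, ha⟩ := hbit
  set F : FreePart d → Prop := fun x => ¬ Enc (W x) 0 0 ∧ (W x 0 0).2 = a ∧ H x with hF
  have hFm : NullMeasurableSet {x | F x} (coin d) :=
    (r7_Enc hW 0 0).compl.inter ((r7_pred hW 0 0 fun s => s.2 = a).inter (r7_apex hW))
  have hFv : ∀ v : Prop, NullMeasurableSet {x | F x = v} (coin d) := by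
    intro v
    by_cases hv : v
    · have e : {x | F x = v} = {x | F x} := by
        ext x
        simp only [Set.mem_ofPred_eq, hv, eq_iff_iff, iff_true]
      rw [e]
      exact hFm
    · have e : {x | F x = v} = {x | F x}ᶜ := by
        ext x
        simp only [Set.mem_ofPred_eq, mem_compl_iff, hv, eq_iff_iff, iff_false]
      rw [e]
      exact hFm.compl
  obtain ⟨q₀, hq⟩ := mix_coin d F hFv {0, pt hd 1 0} (fun _ => True) fun g _ =>
    ha.mono fun x hx => eq_true hx
  obtain ⟨x, hx⟩ := hq (2 * q₀ + 1) (by omega)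
  have hx0 : F x := by
    have := hx 0 (by simp)
    rw [smul_zero, act_zero] at this
    exact of_eq_true this
  have hx1 : F (act (pt hd ((2 * q₀ + 1 : ℕ) : ℤ) 0) x) := by
    have h := hx (pt hd 1 0) (by simp)
    have e : (2 * q₀ + 1) • pt hd 1 0 = pt hd ((2 * q₀ + 1 : ℕ) : ℤ) 0 := by
      unfold pt
      rw [smul_add, ← Pi.single_smul, ← Pi.single_smul]
      simp
    rw [e] at h
    exact of_eq_true h
  obtain ⟨hE0, hb0, hHx⟩ := hx0
  obtain ⟨hE1, hb1, -⟩ := hx1
  rw [r7_Enc_shift (hW.equi x _ 0)] at hE1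
  rw [hW.equi] at hb1
  have h5 := h4 x 0 (fun i => (hHx i 0).1) (fun i => (hHx i 0).2) (2 * q₀ + 1) 0 hE0
    (by simpa using hE1)
  have h6 : (W x (0 + ((2 * q₀ + 1 : ℕ) : ℤ)) 0).2 = a := by simpa using hb1
  rw [h6, hb0] at h5
  have h7 : (2 * q₀ + 1) % 2 = 1 := by omega
  rw [h7] at h5
  cases a <;> simp at h5

end Pool.Agent.H89.BM
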