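import Pool.Agent.H89.BM.Defs

/-!
Project BM (`MP_6540cb_lc`), row 8: two frames of one configuration are equal, or far from each
other, or one of them is nested in the other.
-/

namespace Pool.Agent.H89.BM

/-- A property of integers which passes from neighbour to neighbour in an interval. -/
theorem r8_walk {P : ℤ → Prop} {m n : ℤ} (h : ∀ k, m ≤ k → k < n → (P k ↔ P (k + 1))) :
    ∀ k, m ≤ k → k ≤ n → (P m ↔ P k) := by
  intro k hk
  induction k, hk using Int.leInduction with
  | base => intro _; exact Iff.rfl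
  | succ k hk ih => intro hn; exact (ih (by omega)).trans (h k hk (by omega))

/-- If the distances of the cells of a circle to a point avoid the values between `s` and `S`,
then all of them are small or all of them are large. -/
theorem r8_all {c d ρ s S : ℤ} (hρ : 0 ≤ ρ) (hs : s < S)
    (h : ∀ u v, nrm u v = ρ → nrm (u - c) (v - d) ≤ s ∨ S < nrm (u - c) (v - d)) :
    (∀ u v, nrm u v = ρ → nrm (u - c) (v - d) ≤ s) ∨
      ∀ u v, nrm u v = ρ → S < nrm (u - c) (v - d) := by
  have key : ∀ u v u' v', nrm u v = ρ → nrm u' v' = ρ → |u' - u| ≤ 1 → |v' - v| ≤ 1 →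
      (nrm (u - c) (v - d) ≤ s ↔ nrm (u' - c) (v' - d) ≤ s) := by
    intro u v u' v' h1 h2 h3 h4
    have e1 := h u v h1
    have e2 := h u' v' h2
    have e3 : nrm (u' - c) (v' - d) ≤ nrm (u - c) (v - d) + 1 := by
      simp only [nrm, abs_eq_max_neg] at h3 h4 ⊢
      omega
    have e4 : nrm (u - c) (v - d) ≤ nrm (u' - c) (v' - d) + 1 := by
      simp only [nrm, abs_eq_max_neg] at h3 h4 ⊢
      omega
    omega
  have s1 : ∀ q, |q| = ρ → ∀ k, -ρ ≤ k → k ≤ ρ →
      (nrm (-ρ - c) (q - d) ≤ s ↔ nrm (k - c) (q - d) ≤ s) := by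
    intro q hq
    refine r8_walk (P := fun k => nrm (k - c) (q - d) ≤ s) ?_
    intro k hk hk'
    refine key k q (k + 1) q ?_ ?_ ?_ ?_ <;>
    · simp only [nrm, abs_eq_max_neg] at hq ⊢
      omega
  have s2 : ∀ p, |p| = ρ → ∀ k, -ρ ≤ k → k ≤ ρ →
      (nrm (p - c) (-ρ - d) ≤ s ↔ nrm (p - c) (k - d) ≤ s) := by
    intro p hp
    refine r8_walk (P := fun k => nrm (p - c) (k - d) ≤ s) ?_
    intro k hk hk'
    refine key p k p (k + 1) ?_ ?_ ?_ ?_ <;>
    · simp only [nrm, abs_eq_max_neg] at hp ⊢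
      omega
  have aρ : |ρ| = ρ := abs_of_nonneg hρ
  have aρ' : |-ρ| = ρ := by rw [abs_neg, aρ]
  have all : ∀ u v, nrm u v = ρ →
      (nrm (-ρ - c) (-ρ - d) ≤ s ↔ nrm (u - c) (v - d) ≤ s) := by
    intro u v huv
    have hu : -ρ ≤ u ∧ u ≤ ρ ∧ -ρ ≤ v ∧ v ≤ ρ ∧ (u = -ρ ∨ u = ρ ∨ v = -ρ ∨ v = ρ) := by
      simp only [nrm, abs_eq_max_neg] at huv
      omega
    obtain ⟨h1, h2, h3, h4, h5⟩ := hu
    rcases h5 with rfl | rfl | rfl | rfl
    · exact s2 _ aρ' v h3 h4
    · exact (s1 _ aρ' u h1 h2).trans (s2 u aρ v h3 h4)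
    · exact s1 _ aρ' u h1 h2
    · exact (s2 _ aρ' v h3 h4).trans (s1 v aρ u h1 h2)
  by_cases h0 : nrm (-ρ - c) (-ρ - d) ≤ s
  · left
    intro u v huv
    exact (all u v huv).1 h0
  · right
    intro u v huv
    rcases h u v huv with h1 | h1
    · exact absurd ((all u v huv).2 h1) h0
    · exact h1

/-- The cells of the circle of one frame are in the box of the other frame or outside of its
annulus. -/
theorem r8_avoid {X : ℤ → ℤ → Bool} {a b r a' b' r' : ℤ} (h : Fr X a b r) (h' : Fr X a' b' r') :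
    ∀ u v, nrm u v = r → nrm (u - (a' - a)) (v - (b' - b)) ≤ r' ∨
      20 * r' < nrm (u - (a' - a)) (v - (b' - b)) := by
  intro u v huv
  by_contra hcon
  push Not at hcon
  have h1 := (h.2 u v).1 huv
  have h2 := (h'.2 (u - (a' - a)) (v - (b' - b))).2 hcon.1 hcon.2
  have e1 : a' + (u - (a' - a)) = a + u := by ring
  have e2 : b' + (v - (b' - b)) = b + v := by ring
  rw [e1, e2, h1] at h2
  exact absurd h2 (by decide)

theorem fr_cases {X : ℤ → ℤ → Bool} {a b r a' b' r' : ℤ} (h : Fr X a b r) (h' : Fr X a' b' r')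
    (hr : r ≤ r') : (a = a' ∧ b = b' ∧ r = r') ∨ 19 * r' < nrm (a - a') (b - b') ∨
      nrm (a - a') (b - b') + 20 * r < r' := by
  have h8 := h.1
  rcases r8_all (by omega) (by omega) (r8_avoid h h') with h1 | h1
  · have k1 := h1 r 0
    have k2 := h1 (-r) 0
    have k3 := h1 0 r
    have k4 := h1 0 (-r)
    have k : nrm (a - a') (b - b') + r ≤ r' := by
      simp only [nrm, abs_eq_max_neg] at k1 k2 k3 k4 ⊢
      omega
    clear k1 k2 k3 k4 h1
    rcases r8_all (by omega) (by omega) (r8_avoid h' h) with h2 | h2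
    · left
      have k1 := h2 r' 0
      have k2 := h2 (-r') 0
      have k3 := h2 0 r'
      have k4 := h2 0 (-r')
      simp only [nrm, abs_eq_max_neg] at k k1 k2 k3 k4
      omega
    · right
      right
      have k1 := h2 r' (b - b')
      have k2 := h2 (-r') (b - b')
      have k3 := h2 (a - a') r'
      have k4 := h2 (a - a') (-r')
      simp only [nrm, abs_eq_max_neg] at k k1 k2 k3 k4 ⊢
      omega
  · right
    left
    have k1 := h1 r 0
    simp only [nrm, abs_eq_max_neg] at k1 ⊢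
    omega

end Pool.Agent.H89.BM
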