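import Pool.Agent.H89.BM.Defs

/-!
Project BM (`MP_6540cb_lc`), row BM-9: the geometry of one object.
-/

open MeasureTheory Topology Filter Set
open Pool.Agent.H62.BS

namespace Pool.Agent.H89.BM

private theorem r9_cell {r u v : ℤ} (hr : 8 ≤ r) (h : cellLab r u v ≠ Lab.O) :
    -(4 * r + 6) ≤ u + r + 2 ∧ u + r + 2 ≤ 4 * r + 6 ∧ 0 ≤ 3 * r + 4 - v ∧
      3 * r + 4 - v ≤ 4 * r + 6 := by
  unfold cellLab at h
  split_ifs at h <;> first | (exact absurd rfl h) | omega

theorem cell_far {r u v : ℤ} (hr : 8 ≤ r) (h : cellLab r u v ≠ Lab.O ∨ inNest r u v) :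
    nrm u v ≤ 6 * r := by
  unfold nrm
  rcases h with h | h
  · have := r9_cell hr h
    rw [max_le_iff, abs_le, abs_le]
    omega
  · unfold inNest at h
    rw [max_le_iff, abs_le, abs_le]
    omega

theorem cell_out {r u v : ℤ} (hr : 8 ≤ r) (h : nrm u v ≤ r) :
    cellLab r u v = Lab.O ∧ inNest r u v := by
  unfold nrm at h
  rw [max_le_iff, abs_le, abs_le] at h
  unfold cellLab inNest
  constructor
  · split_ifs <;> first | rfl | omega
  · omega

/-- where the nest changes -/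
theorem nest_right {r : ℤ} (hr : 8 ≤ r) (u v : ℤ)
    (h : ¬ (inNest r u v ↔ inNest r (u + 1) v)) :
    (cellLab r u v = Lab.M false ∧ cellLab r (u + 1) v = Lab.O) ∨
      (cellLab r u v = Lab.O ∧ cellLab r (u + 1) v = Lab.Y false) := by
  unfold inNest at h
  have h' : (1 ≤ u + 1 + r + 2 ∧ ¬ (1 ≤ u + r + 2) ∧ u + 1 + r + 2 < 3 * r + 4 - v ∧
      3 * r + 4 - v < 4 * r + 6) ∨ (1 ≤ u + r + 2 ∧ u + r + 2 < 3 * r + 4 - v ∧
      3 * r + 4 - v < 4 * r + 6 ∧ ¬ (u + 1 + r + 2 < 3 * r + 4 - v)) := by omega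
  rcases h' with h' | h'
  · left
    unfold cellLab
    constructor
    · split_ifs <;> first | omega | (simp; omega)
    · split_ifs <;> first | omega | rfl
  · right
    unfold cellLab
    constructor
    · split_ifs <;> first | omega | rfl
    · split_ifs <;> first | omega | (simp; omega)

theorem nest_down {r : ℤ} (hr : 8 ≤ r) (u v : ℤ)
    (h : ¬ (inNest r u v ↔ inNest r u (v - 1))) :
    cellLab r u v = Lab.Y false ∨ cellLab r u (v - 1) = Lab.D := by
  unfold inNest at h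
  have h' : (u + r + 2 = 3 * r + 4 - v ∧ 1 ≤ u + r + 2 ∧ 3 * r + 4 - v < 4 * r + 5) ∨
      (1 ≤ u + r + 2 ∧ u + r + 2 < 3 * r + 4 - v ∧ 3 * r + 4 - v = 4 * r + 5) := by omega
  rcases h' with h' | h'
  · left
    unfold cellLab
    split_ifs <;> first | omega | (simp; omega)
  · right
    unfold cellLab
    split_ifs <;> first | omega | rfl

theorem nest_diag {r : ℤ} (hr : 8 ≤ r) (u v : ℤ)
    (h : ¬ (inNest r u v ↔ inNest r (u + 1) (v - 1))) :
    cellLab r u v = Lab.M false ∨ cellLab r (u + 1) (v - 1) = Lab.D := by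
  unfold inNest at h
  have h' : (u + r + 2 = 0 ∧ 1 ≤ 3 * r + 4 - v ∧ 3 * r + 4 - v < 4 * r + 5) ∨
      (1 ≤ u + r + 2 ∧ u + r + 2 < 3 * r + 4 - v ∧ 3 * r + 4 - v = 4 * r + 5) := by omega
  rcases h' with h' | h'
  · left
    unfold cellLab
    split_ifs <;> first | omega | (simp; omega)
  · right
    unfold cellLab
    split_ifs <;> first | omega | rfl

end Pool.Agent.H89.BM
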